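import Pool.Agent.P.MP_2ce3e7_ag.Pav.DescG
import Pool.Agent.K.MP_e12fcd_ag.C112
import Pool.Agent.K.MP_e12fcd_ag.C117

/-! Transfer of additive functions along an algebraic extension of the ground field. -/

attribute [local instance] Pool.Agent.CXD.instAddCommGroupRs Pool.Agent.CXD.instModuleRs
  Pool.Agent.CXD.instModuleRs_1

open Function Filter TensorProduct Module
open Pool.Agent.CXD
open Pool.Agent.Bav.Desc (FD ev_mem Kl exists_proj exists_rel sp mem_sp sp_le sp_ext sp_map sp_smul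
  ev_sp bc_spec ring_spec)

noncomputable section

namespace Pool.Agent.Pav.Dn

variable {k Ω : Type} [Field k] [Field Ω] [Algebra k Ω]

section
variable {X Y X' Y' : Type} [AddCommGroup X] [AddCommGroup Y] [Module k Y] [Module Ω X]
  [Module k X] [IsScalarTower k Ω X] [AddCommGroup X'] [AddCommGroup Y'] [Module k Y']
  [Module Ω X'] [Module k X'] [IsScalarTower k Ω X'] {j : Y →ₗ[k] X} {j' : Y' →ₗ[k] X'}

theorem isBC (inj : Injective j) (top : ∀ x, x ∈ Submodule.span Ω (Set.range j))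
    (ret : ∀ r : Ω →ₗ[k] k, ∃ R : X →+ X, ∀ ω y, R (ω • j y) = r ω • j y) : IsBaseChange Ω j := by
  classical
  refine .of_equiv (LinearEquiv.ofBijective (j.liftBaseChange Ω)
    ⟨(injective_iff_map_eq_zero _).2 fun t ht => ?_, ?_⟩) fun y => by simp
  · let b := Basis.ofVectorSpace k Ω
    refine (equivFinsuppOfBasisLeft b).map_eq_zero_iff.1 (Finsupp.ext fun i => inj ?_)
    obtain ⟨R, hR⟩ := ret (b.coord i)
    have : ∀ t, j (equivFinsuppOfBasisLeft b t i) = R (j.liftBaseChange Ω t) := fun t => by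
      induction t with
      | zero => simp
      | tmul ω y => simp [hR]
      | add s t hs ht => simp only [map_add, Finsupp.add_apply, hs, ht]
    rw [this, ht]
    simp
  · rw [← LinearMap.range_eq_top, LinearMap.range_liftBaseChange, eq_top_iff]
    exact fun x _ => top x

/-- the base change of a tensor product -/
def tensE (h : IsBaseChange Ω j) (h' : IsBaseChange Ω j') :
    Ω ⊗[k] (Y ⊗[k] Y') ≃ₗ[Ω] X ⊗[Ω] X' :=
  (AlgebraTensorModule.distribBaseChange k Ω Y Y').trans (TensorProduct.congr h.equiv h'.equiv)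

theorem tensE_tmul (h : IsBaseChange Ω j) (h' : IsBaseChange Ω j') (y : Y) (y' : Y') :
    tensE h h' (1 ⊗ₜ (y ⊗ₜ y')) = j y ⊗ₜ j' y' := by
  simp [tensE, IsBaseChange.equiv_tmul]

theorem tens_spec (h : IsBaseChange Ω j) (h' : IsBaseChange Ω j') :
    ∃ J : Y ⊗[k] Y' →ₗ[k] X ⊗[Ω] X', (∀ y y', J (y ⊗ₜ y') = j y ⊗ₜ j' y') ∧ Injective J ∧
      (∀ H : AddSubgroup (X ⊗[Ω] X'), (∀ (ω : Ω) y, ω • J y ∈ H) → ∀ x, x ∈ H) ∧
      ∀ r : Ω →ₗ[k] Ω, ∃ R : X ⊗[Ω] X' →+ X ⊗[Ω] X', ∀ ω y, R (ω • J y) = r ω • J y := by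
  let e := tensE h h'
  have he : ∀ (ω : Ω) y, ω • e (1 ⊗ₜ y) = e (ω ⊗ₜ y) := fun ω y => by
    rw [← e.map_smul, smul_tmul', smul_eq_mul, mul_one]
  refine ⟨e.toLinearMap.restrictScalars k ∘ₗ TensorProduct.mk k Ω _ 1, tensE_tmul h h',
    (injective_iff_map_eq_zero _).2 fun y hy => ?_, fun H hH x => ?_, fun r => ?_⟩
  · exact (Module.FaithfullyFlat.one_tmul_eq_zero_iff k _ (A := Ω) y).1 (e.map_eq_zero_iff.1 hy)
  · obtain ⟨t, rfl⟩ := e.surjective x
    induction t with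
    | zero => simp
    | tmul ω y => exact he ω y ▸ hH ω y
    | add s t hs ht => exact map_add e s t ▸ add_mem hs ht
  · refine ⟨e.toAddEquiv.toAddMonoidHom.comp ((r.rTensor _).toAddMonoidHom.comp
      e.symm.toAddEquiv.toAddMonoidHom), fun ω y => ?_⟩
    change e (r.rTensor _ (e.symm (ω • e (1 ⊗ₜ y)))) = r ω • e (1 ⊗ₜ y)
    rw [he, he, e.symm_apply_apply, LinearMap.rTensor_tmul]

end

variable {A B Γ : Type} [CommRing A] [CommRing B] [AddCommGroup Γ] [Algebra A B]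

theorem cy_bc {V : Type} [AddCommGroup V] [Module A V] {e : V} {I : Ideal A}
    (h1 : Submodule.span A {e} = ⊤) (h2 : ∀ a : A, a • e = 0 ↔ a ∈ I) :
    Submodule.span B {(1 : B) ⊗ₜ[A] e} = ⊤ ∧
      ∀ β : B, β • (1 : B) ⊗ₜ[A] e = 0 ↔ β ∈ I.map (algebraMap A B) := by
  have hs : Surjective (LinearMap.toSpanSingleton A V e) := by
    rw [← LinearMap.range_eq_top, LinearMap.range_toSpanSingleton, h1]
  let u : (A ⧸ I) ≃ₗ[A] V := (Submodule.quotEquivOfEq _ _ (Submodule.ext fun a => (h2 a).symm)).trans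
    ((LinearMap.toSpanSingleton A V e).quotKerEquivOfSurjective hs)
  have hu : u 1 = e := one_smul A e
  let w := (Algebra.TensorProduct.quotIdealMapEquivTensorQuot B I).toLinearEquiv.trans
    (u.baseChange A B _ _)
  have hw : ∀ β, w (Ideal.Quotient.mk _ β) = β • (1 : B) ⊗ₜ[A] e := fun β => by
    rw [smul_tmul', smul_eq_mul, mul_one, ← hu]
    rfl
  refine ⟨eq_top_iff.2 fun x _ => ?_, fun β => ?_⟩
  · obtain ⟨y, rfl⟩ := w.surjective x
    obtain ⟨β, rfl⟩ := Ideal.Quotient.mk_surjective y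
    exact Submodule.mem_span_singleton.2 ⟨β, (hw β).symm⟩
  · rw [← hw, w.map_eq_zero_iff, Ideal.Quotient.eq_zero_iff_mem]

variable [Algebra Ω B] {𝒜 : Γ → Set A} {ℬ : Γ → Set B}

theorem Form.rebase {A' : Type} [CommRing A'] [Algebra A' B] {𝒜' : Γ → Set A'}
    {L : IntermediateField k Ω} (h0 : ∀ c, ∀ a ∈ 𝒜' c, algebraMap A' B a ∈ ℬ c)
    (h1 : ∀ a : A', algebraMap A' B a ∈ sp B (L : Set Ω) (algebraMap A B))
    (h2 : ∀ a : A, ∃ a', algebraMap A' B a' = algebraMap A B a) {N : GM ℬ} {N' : GM 𝒜}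
    {j : N'.M →+ N.M} (h : Form L N N' j) (hf : Module.Finite A N'.M) :
    ∃ (P : GM 𝒜') (i : P.M →+ N.M), Module.Finite A' P.M ∧
      Form (⊥ : IntermediateField L Ω) N P i := by
  obtain ⟨s, hs⟩ := hf.fg_top
  let : Module A' N.M := (rs h0 N).mod
  let W := Submodule.span A' (j '' s)
  have hW : ∀ y, y ∈ W ↔ ∃ x, j x = y := fun y => by
    refine ⟨fun hy => ?_, ?_⟩
    · induction hy using Submodule.span_induction with
      | mem y hy => exact hy.imp fun _ h => h.2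
      | zero => exact ⟨0, map_zero j⟩
      | add y z _ _ hy hz => exact j.range.add_mem hy hz
      | smul a y _ hy =>
        obtain ⟨x, rfl⟩ := hy
        refine sp_le (H := j.range.comap ((smulAddHom B N.M).flip (j x))) (fun c hc b => ?_) (h1 a)
        obtain ⟨w, hw⟩ := h.st c hc (b • x)
        exact ⟨w, by rw [hw, h.lin, ← mul_smul]; rfl⟩
    · rintro ⟨x, rfl⟩
      have hx : x ∈ Submodule.span A (s : Set N'.M) := hs ▸ trivial
      induction hx using Submodule.span_induction with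
      | mem x hx => exact Submodule.subset_span ⟨x, hx, rfl⟩
      | zero => simp
      | add x y _ _ hx hy => exact map_add j x y ▸ W.add_mem hx hy
      | smul a x _ hx =>
        obtain ⟨a', ha⟩ := h2 a
        rw [h.lin, ← ha]
        exact W.smul_mem a' hx
  have hfin : Module.Finite A' W := Module.Finite.span_of_finite A' (s.finite_toSet.image j)
  refine ⟨(rs h0 N).sub W fun d y hy => ?_, W.subtype.toAddMonoidHom, hfin, Subtype.val_injective,
    fun _ _ => rfl, fun _ _ => rfl, fun c hc x => ?_, fun y => ?_, fun r hr => ?_⟩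
  · obtain ⟨x, rfl⟩ := (hW y).1 hy
    exact (hW _).2 ⟨_, h.gr d x⟩
  · obtain ⟨c, rfl⟩ := IntermediateField.mem_bot.1 hc
    obtain ⟨y, hy⟩ := (hW _).1 x.2
    obtain ⟨w, hw⟩ := h.st c c.2 y
    exact ⟨⟨_, (hW _).2 ⟨w, rfl⟩⟩, hw.trans (congrArg _ hy)⟩
  · exact sp_le (fun c hc x => mem_sp (B := B) (j := (W.subtype.toAddMonoidHom : W → N.M)) hc
      ⟨_, (hW _).2 ⟨x, rfl⟩⟩) (h.top y)
  · obtain ⟨R, hR⟩ := h.ret r fun c hc => hr c (algebraMap_mem ⊥ (⟨c, hc⟩ : L))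
    refine ⟨R, fun ω x => ?_⟩
    obtain ⟨y, hy⟩ := (hW _).1 x.2
    have := hR ω y
    rwa [hy] at this

variable [Algebra k A] [Algebra k B] [IsScalarTower k A B] [IsScalarTower k Ω B]

theorem Form.isBC {N : GM ℬ} {N' : GM 𝒜} {j : N'.M →+ N.M}
    (h : Form (⊥ : IntermediateField k Ω) N N' j) [Module k (Rs Ω B N.M)]
    [IsScalarTower k Ω (Rs Ω B N.M)] :
    ∃ j' : Rs k A N'.M →ₗ[k] Rs Ω B N.M, (∀ x, j' x = j x) ∧ IsBaseChange Ω j' := by
  have e : ∀ c, algebraMap A B (algebraMap k A c) = algebraMap Ω B (algebraMap k Ω c) := fun c =>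
    (IsScalarTower.algebraMap_apply k A B c).symm.trans (IsScalarTower.algebraMap_apply k Ω B c)
  refine ⟨⟨⟨j, j.map_add⟩, fun c x => ((h.lin (algebraMap k A c) x).trans
    (congrArg (· • j x) (e c))).trans (algebraMap_smul Ω c (show Rs Ω B N.M from j x))⟩,
    fun _ => rfl, Dn.isBC h.inj (fun x => ?_) fun r => ?_⟩
  · refine sp_le (H := (Submodule.span Ω (M := Rs Ω B N.M) _).toAddSubgroup) (fun c _ y => ?_)
      (h.top x)
    exact Submodule.smul_mem (M := Rs Ω B N.M) _ c (Submodule.subset_span ⟨y, rfl⟩)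
  · obtain ⟨R, hR⟩ := h.ret (Algebra.linearMap k Ω ∘ₗ r).toAddMonoidHom fun c hc ω => by
      obtain ⟨c, rfl⟩ := IntermediateField.mem_bot.1 hc
      simp [← Algebra.smul_def]
    exact ⟨R, fun ω y => (hR ω y).trans (algebraMap_smul Ω (r ω) (show Rs Ω B N.M from j y))⟩

theorem Form.box [Gd 𝒜] [Gk k 𝒜] [Gd ℬ] [Gk Ω ℬ] [Algebra (A ⊗[k] A) (B ⊗[Ω] B)]
    (ha : ∀ a a', algebraMap (A ⊗[k] A) (B ⊗[Ω] B) (a ⊗ₜ a') =
      algebraMap A B a ⊗ₜ algebraMap A B a') {M N : GM ℬ} {M' N' : GM 𝒜} {i : M'.M →+ M.M}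
    {j : N'.M →+ N.M} (hM : Form (⊥ : IntermediateField k Ω) M M' i)
    (hN : Form (⊥ : IntermediateField k Ω) N N' j) :
    ∃ J, Form (⊥ : IntermediateField k Ω) (gbox Ω M N) (gbox k M' N') J := by
  let : Module k (Rs Ω B M.M) := Module.compHom _ (algebraMap k Ω)
  let : Module k (Rs Ω B N.M) := Module.compHom _ (algebraMap k Ω)
  have : IsScalarTower k Ω (Rs Ω B M.M) := ⟨fun a b x => by rw [Algebra.smul_def, mul_smul]; rfl⟩
  have : IsScalarTower k Ω (Rs Ω B N.M) := ⟨fun a b x => by rw [Algebra.smul_def, mul_smul]; rfl⟩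
  obtain ⟨i', hi, h1⟩ := hM.isBC
  obtain ⟨j', hj, h2⟩ := hN.isBC
  obtain ⟨J, e1, e2, e3, e4⟩ := tens_spec h1 h2
  let J' : (gbox k M' N').M →+ (gbox Ω M N).M := J.toAddMonoidHom
  have e5 : ∀ x y, J' (gb k M' N' x y) = gb Ω M N (i x) (j y) := fun x y =>
    (e1 x y).trans (by rw [hi, hj]; rfl)
  have e6 : ∀ (ω : Ω) (u : Rs Ω B M.M ⊗[Ω] Rs Ω B N.M), algebraMap Ω (B ⊗[Ω] B) ω •
      (show (gbox Ω M N).M from u) = (show (gbox Ω M N).M from ω • u) := fun ω u =>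
    LinearMap.congr_fun ((act Ω B B M.M N.M).commutes ω) u
  have lin : ∀ (a : A ⊗[k] A) u, J' (a • u) = algebraMap _ (B ⊗[Ω] B) a • J' u := fun a u => by
    induction a with
    | zero => simp
    | add a b h1 h2 => simp only [add_smul, map_add, h1, h2]
    | tmul a b =>
      induction u using gbox_ind with
      | h0 => simp
      | h1 _ x _ y => rw [smul_gb, e5, e5, ha, smul_gb, hM.lin, hN.lin]
      | h2 u v h1 h2 => simp only [smul_add, map_add, h1, h2]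
  refine ⟨J', e2, lin, fun d u => ?_, fun c hc u => ?_, fun u => ?_, fun r hr => ?_⟩
  · induction u using gbox_ind with
    | h0 => simp
    | h1 _ x _ y => rw [gbox_π, e5, e5, gbox_π, hM.gr, hN.gr]
    | h2 u v h1 h2 => simp only [map_add, h1, h2]
  · obtain ⟨c, rfl⟩ := IntermediateField.mem_bot.1 hc
    refine ⟨algebraMap k (A ⊗[k] A) c • u, (lin _ u).trans ?_⟩
    rw [Algebra.TensorProduct.algebraMap_apply, ha, Algebra.TensorProduct.algebraMap_apply, map_one,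
      ← IsScalarTower.algebraMap_apply, ← IsScalarTower.algebraMap_apply]
  · exact e3 (sp (X := (gbox Ω M N).M) (B ⊗[Ω] B) (Set.univ : Set Ω) J') (fun ω y => by
      have := mem_sp (B := B ⊗[Ω] B) (j := J') (Set.mem_univ ω) y
      rwa [show _ • J' y = _ from e6 ω (J y)] at this) u
  · obtain ⟨R, hR⟩ := e4 ⟨r, fun c ω => by
      simpa [Algebra.smul_def] using hr _ (algebraMap_mem ⊥ c) ω⟩
    exact ⟨R, fun ω y => (congrArg R (e6 ω (J y))).trans ((hR ω y).trans (e6 (r ω) (J y)).symm)⟩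

variable [Algebra.IsPushout k Ω A B]

theorem Cmp.exists_val [Algebra.IsAlgebraic k Ω] [IsNoetherianRing B] (h : Cmp k Ω 𝒜 ℬ)
    {c : GM 𝒜 → ℚ} (hc : GAdd c) : ∃ c' : GM ℬ → ℚ, GAdd c' ∧
      (∀ (N : GM ℬ) (N' : GM 𝒜) (j : N'.M →+ N.M), Module.Finite B N.M → Module.Finite A N'.M →
        Form (⊥ : IntermediateField k Ω) N N' j → c' N = c N') ∧
      ∀ S : Set A, VnG ⊥ S c → VnG ⊥ (algebraMap A B '' S) c' := by
  classical
  choose K D j hD using h.exists_form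
  refine ⟨fun N => if hN : Module.Finite B N.M then
    (finrank k (K ⟨N, hN⟩).1 : ℚ)⁻¹ * c (D ⟨N, hN⟩).1 else 0, fun M N P hN hs => ?_,
    fun N N' i hN hN' hi => ?_, fun S hS N hN _ h0 => ?_⟩
  · obtain ⟨f, g, -, -, h1, h2, -⟩ := id hs
    have hM := Module.Finite.of_injective f h1
    have hP := Module.Finite.of_surjective g h2
    simp only [dif_pos hM, dif_pos hN, dif_pos hP]
    exact val_add h.cst' hc (D _).2 (D _).2 (D _).2 (hD ⟨M, hM⟩) (hD ⟨N, hN⟩) (hD ⟨P, hP⟩) hs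
  · have := val_add h.cst' hc (K₁ := ⟨⊥, inferInstance⟩) hN' (D _).2 (D _).2 hi (hD ⟨N, hN⟩)
      (hD ⟨N.pi 0, inferInstance⟩) ⟨LinearMap.id, 0, fun _ _ => rfl,
        fun _ _ => funext fun i => i.elim0, injective_id, fun y => ⟨0, funext fun i => i.elim0⟩,
        fun y => ⟨fun _ => ⟨y, rfl⟩, fun _ => rfl⟩⟩
    have h0 := (hD ⟨N.pi 0, inferInstance⟩).inj.subsingleton
    rw [hc.zero (D ⟨N.pi 0, inferInstance⟩).1] at this
    simpa [dif_pos hN] using this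
  · simp only [dif_pos hN]
    rw [hS _ (D _).2 kill_bot fun f hf x => ?_, mul_zero]
    obtain ⟨m, hm⟩ := h0 _ ⟨f, hf, rfl⟩ (j ⟨N, hN⟩ x)
    exact ⟨m, (hD _).inj (by rw [(hD _).lin, map_pow, hm, map_zero])⟩

theorem Cmp.tens [Gd 𝒜] [Gd ℬ] (h : Cmp k Ω 𝒜 ℬ) :
    ∃ (_ : Algebra (A ⊗[k] A) (B ⊗[Ω] B)) (_ : IsScalarTower k (A ⊗[k] A) (B ⊗[Ω] B))
      (_ : Algebra.IsPushout k Ω (A ⊗[k] A) (B ⊗[Ω] B)),
      (∀ a a', algebraMap (A ⊗[k] A) (B ⊗[Ω] B) (a ⊗ₜ a') =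
        algebraMap A B a ⊗ₜ algebraMap A B a') ∧ Cmp k Ω (tg k 𝒜 𝒜) (tg Ω ℬ ℬ) := by
  have e : (algebraMap A B).comp (algebraMap k A) = (algebraMap Ω B).comp (algebraMap k Ω) :=
    (IsScalarTower.algebraMap_eq k A B).symm.trans (IsScalarTower.algebraMap_eq k Ω B)
  let : Algebra (A ⊗[k] A) (B ⊗[Ω] B) := (Algebra.TensorProduct.mapRingHom (algebraMap k Ω)
    (algebraMap A B) (algebraMap A B) e e).toAlgebra
  have ha : ∀ a a', algebraMap (A ⊗[k] A) (B ⊗[Ω] B) (a ⊗ₜ a') =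
      algebraMap A B a ⊗ₜ algebraMap A B a' := Algebra.TensorProduct.mapRingHom_tmul _ _ _ e e
  have : IsScalarTower k (A ⊗[k] A) (B ⊗[Ω] B) := .of_algebraMap_eq fun c => by
    rw [Algebra.TensorProduct.algebraMap_apply, Algebra.TensorProduct.algebraMap_apply, ha, map_one,
      ← IsScalarTower.algebraMap_apply]
  have hb := Algebra.IsPushout.out (R := k) (S := Ω) (R' := A) (S' := B)
  refine ⟨_, this, ⟨.of_equiv (tensE hb hb) fun x => ?_⟩, ha, fun a => Gd.gen.ge trivial,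
    fun r => ⟨_, h.cst r, 1, Gd.one, rfl⟩, fun r => ⟨_, h.cst' r, 1, Gd.one, rfl⟩, ?_, ?_⟩
  · induction x with
    | zero => simp
    | tmul a b => exact (tensE_tmul hb hb a b).trans (ha a b).symm
    | add x y hx hy => simp only [tmul_add, map_add, hx, hy]
  · rintro c _ ⟨a, h1, b, h2, rfl⟩
    exact ⟨_, h.map _ a h1, _, h.map _ b h2, ha a b⟩
  · rintro c _ ⟨a, h1, b, h2, rfl⟩
    refine sp_le (H := (sp (B ⊗[Ω] B) (Set.univ : Set Ω) fun a : tg k 𝒜 𝒜 c =>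
      algebraMap (A ⊗[k] A) (B ⊗[Ω] B) a).comap ((TensorProduct.mk Ω B B).flip b).toAddMonoidHom)
      (fun ω _ x => ?_) (h.dec _ a h1)
    refine sp_le (H := (sp (B ⊗[Ω] B) (Set.univ : Set Ω) fun a : tg k 𝒜 𝒜 c =>
      algebraMap (A ⊗[k] A) (B ⊗[Ω] B) a).comap (TensorProduct.mk Ω B B
        (algebraMap Ω B ω • algebraMap A B x)).toAddMonoidHom) (fun ω' _ y => ?_) (h.dec _ b h2)
    have := mem_sp (B := B ⊗[Ω] B) (j := fun a : tg k 𝒜 𝒜 c =>
      algebraMap (A ⊗[k] A) (B ⊗[Ω] B) a) (Set.mem_univ (ω' * ω)) ⟨_, x, x.2, y, y.2, rfl⟩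
    rw [ha, algebraMap_smul, mul_smul, smul_tmul' ω, ← tmul_smul, ← algebraMap_smul B ω,
      ← algebraMap_smul B ω'] at this
    exact this

open MvPolynomial in
theorem cmp_quot (k Ω : Type) [Field k] [Field Ω] [Algebra k Ω] {τ : Type}
    (J : Ideal (MvPolynomial τ k)) (I : Ideal (MvPolynomial τ Ω))
    (hI : I = J.map (MvPolynomial.map (algebraMap k Ω))) :
    ∃ (_ : Algebra (MvPolynomial τ k ⧸ J) (MvPolynomial τ Ω ⧸ I))
      (_ : IsScalarTower k (MvPolynomial τ k ⧸ J) (MvPolynomial τ Ω ⧸ I))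
      (_ : Algebra.IsPushout k Ω (MvPolynomial τ k ⧸ J) (MvPolynomial τ Ω ⧸ I)),
      (∀ g, algebraMap (MvPolynomial τ k ⧸ J) (MvPolynomial τ Ω ⧸ I) (Ideal.Quotient.mk J g) =
        Ideal.Quotient.mk I (map (algebraMap k Ω) g)) ∧ Cmp k Ω (hom J) (hom I) := by
  let : Algebra (MvPolynomial τ k) (MvPolynomial τ Ω) := algebraMvPolynomial
  obtain rfl : I = J.map (algebraMap (MvPolynomial τ k) (MvPolynomial τ Ω)) := hI
  set I := J.map (algebraMap (MvPolynomial τ k) (MvPolynomial τ Ω))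
  have ha : ∀ g, algebraMap (MvPolynomial τ k ⧸ J) (MvPolynomial τ Ω ⧸ I)
      (Ideal.Quotient.mk J g) = Ideal.Quotient.mk I (map (algebraMap k Ω) g) := fun _ => rfl
  have : IsScalarTower k (MvPolynomial τ k ⧸ J) (MvPolynomial τ Ω ⧸ I) :=
    .of_algebraMap_eq (R := k) (S := MvPolynomial τ k ⧸ J) (A := MvPolynomial τ Ω ⧸ I)
      fun r => congrArg (Ideal.Quotient.mk I) (map_C (algebraMap k Ω) r).symm
  have hp : Algebra.IsPushout k Ω (MvPolynomial τ k ⧸ J) (MvPolynomial τ Ω ⧸ I) :=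
    ⟨.of_equiv ((Algebra.IsPushout.cancelBaseChange k Ω (MvPolynomial τ k) (MvPolynomial τ Ω)
      (MvPolynomial τ k ⧸ J)).symm.trans ((Algebra.TensorProduct.quotIdealMapEquivTensorQuot
        (MvPolynomial τ Ω) J).symm.toLinearEquiv.restrictScalars Ω)) fun x => by
      obtain ⟨g, rfl⟩ := Ideal.Quotient.mk_surjective x
      simp only [LinearEquiv.trans_apply, Algebra.IsPushout.cancelBaseChange_symm_tmul, map_one]
      exact congrArg (Ideal.Quotient.mk I) ((Algebra.smul_def g 1).trans (mul_one _))⟩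
  refine ⟨_, this, hp, ha, fun a => Gd.gen.ge trivial, Gk.alg, Gk.alg, ?_, ?_⟩
  · rintro c _ ⟨m, f, hm, hf, rfl⟩
    exact ⟨m, map (algebraMap k Ω) f, hm, hf.map _, rfl⟩
  · rintro c _ ⟨m, f, hm, hf, rfl⟩
    rw [f.as_sum, map_sum]
    refine AddSubgroup.sum_mem _ fun d hd => ?_
    have := mem_sp (B := MvPolynomial τ Ω ⧸ I) (j := fun a : hom J c =>
      algebraMap (MvPolynomial τ k ⧸ J) (MvPolynomial τ Ω ⧸ I) a) (Set.mem_univ (coeff d f))
      ⟨_, m, monomial d 1, hm, isHomogeneous_monomial _ (by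
        rw [Finsupp.degree_eq_weight_one]; exact hf (MvPolynomial.mem_support_iff.1 hd)), rfl⟩
    rwa [ha, map_monomial, map_one, smul_eq_mul, ← Ideal.Quotient.mk_algebraMap, ← map_mul,
      algebraMap_eq, C_mul_monomial, mul_one] at this

end Pool.Agent.Pav.Dn
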