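import Pool.Agent.P.MP_2ce3e7_ag.Pav.Defs
import Pool.Agent.P.MP_2ce3e7_ag.Pav.DescH

/-! Descent of the statement on the diagonal to a finite field. -/

open Function Filter TensorProduct Module
open Pool.Agent.CXD
open Pool.Agent.Bav.Desc (FD sp mem_sp sp_le ring_spec)

noncomputable section

namespace Pool.Agent.Pav

open Dn

theorem down_abs {k Ω A B σ : Type} [Field k] [Fintype k] [Field Ω] [Algebra k Ω]
    [Algebra.IsAlgebraic k Ω] [CommRing A] [CommRing B] [Algebra k A] [Algebra Ω B] [Algebra A B]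
    [Algebra k B] [IsScalarTower k A B] [IsScalarTower k Ω B] [Algebra.IsPushout k Ω A B]
    [Algebra.FiniteType Ω B] {𝒜 : ℤ → Set A} {ℬ : ℤ → Set B} [Gd 𝒜] [Gk k 𝒜] [Gd ℬ] [Gk Ω ℬ]
    (h : Cmp k Ω 𝒜 ℬ) (z : σ → A) (w : σ → B) (hw : ∀ i, algebraMap A B (z i) = w i)
    (T : Set (FGM ℬ × FGM ℬ))
    (hT : ∀ t ∈ T, ∀ N : FGM ℬ, N = t.1 ∨ N = t.2 → ∃ (P : GM 𝒜) (i : P.M →+ N.1.M),
      Module.Finite A P.M ∧ Form (⊥ : IntermediateField k Ω) N.1 P i)
    (H : ∀ l : GM (tg Ω ℬ ℬ) → ℚ, GAdd l → VnG ⊥ (Set.range (zz Ω w)) l →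
      (∀ t ∈ T, l (gbox Ω t.1.1 t.2.1) = 0) → Rec Ω ℬ w (Fintype.card k) l) : DB k 𝒜 z := by
  intro l h1 h2 h3 Y e hY p hp hrec
  have : IsNoetherianRing B := Algebra.FiniteType.isNoetherianRing Ω B
  have := noeth_tensor' Ω B B
  obtain ⟨_, _, _, ha, hc⟩ := h.tens
  obtain ⟨l', a1, a2, a3⟩ := hc.exists_val h1
  have hv : ∀ a, l' (hc.bc (Y a)) = l (Y a) := fun a =>
    have := (hY a).finite
    a2 _ _ _ (inferInstanceAs (Module.Finite (B ⊗[Ω] B) ((B ⊗[Ω] B) ⊗[A ⊗[k] A] (Y a).M))) this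
      (hc.form_bc (Y a))
  rw [← hv]
  refine H l' a1 ?_ (fun t ht => ?_) (fun a => hc.bc (Y a)) (fun a => 1 ⊗ₜ e a) (fun a => ?_) p hp
    fun n => by simpa only [hv] using hrec n
  · have := a3 _ h2
    rwa [← Set.range_comp, show algebraMap (A ⊗[k] A) (B ⊗[Ω] B) ∘ zz k z = zz Ω w from
      funext fun p => (ha _ _).trans (by rw [hw, hw]; rfl)] at this
  · obtain ⟨P, i, f1, g1⟩ := hT t ht _ (Or.inl rfl)
    obtain ⟨Q, j, f2, g2⟩ := hT t ht _ (Or.inr rfl)
    obtain ⟨J, hJ⟩ := Form.box ha g1 g2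
    exact (a2 _ _ J (gbox_finite t.1.2 t.2.2) (gbox_finite f1 f2) hJ).trans (h3 P Q f1 f2)
  · obtain ⟨b1, b2⟩ := cy_bc (B := B ⊗[Ω] B) (hY a).gen (hY a).ann
    refine ⟨((hc.form_bc (Y a)).gr 0 (e a)).symm.trans (congrArg _ (hY a).hom), b1, fun β => ?_⟩
    refine (b2 β).trans ?_
    rw [gI, gI, Ideal.map_span, ← Set.range_comp]
    simp only [comp_def, map_sub, ha, map_pow, hw]

open MvPolynomial in
theorem p_Down : S_Down := by
  intro k Ω _ _ _ _ _ τ _ J ⟨T, hT, H⟩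
  obtain ⟨_, _, _, ha, hc⟩ := cmp_quot k Ω J _ rfl
  choose K D j hD using hc.exists_form
  obtain ⟨L, hL⟩ := ((eventually_all_finite hT).2 fun t _ =>
    (eventually_ge_atTop (K t.1)).and (eventually_ge_atTop (K t.2))).exists
  have := L.2
  have : Finite L.1 := Module.finite_of_finite k
  let := Fintype.ofFinite L.1
  have : Algebra.IsAlgebraic L.1 Ω := Algebra.IsAlgebraic.tower_top (K := k) L.1
  obtain ⟨_, _, _, hb, hd⟩ := cmp_quot L.1 Ω (J.map (MvPolynomial.map (algebraMap k L.1)))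
    (J.map (MvPolynomial.map (algebraMap k Ω))) (by
      rw [Ideal.map_map]
      congr 1
      exact RingHom.ext fun f => (MvPolynomial.map_map (algebraMap k L.1) (algebraMap L.1 Ω) f).symm)
  refine ⟨L.1, inferInstance, inferInstance, inferInstance, down_abs hd _ _
    (fun i => (hb _).trans (congrArg _ (map_X _ i))) T (fun t ht N hN => ?_) ?_⟩
  · obtain ⟨m, j', -, hf, -⟩ := (hD N).up hc.cst' (L := L.1)
      (by rcases hN with rfl | rfl; exacts [(hL t ht).1, (hL t ht).2])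
    have := (D N).2
    refine hf.rebase hd.map (fun a => ?_) (fun a => ?_) inferInstance
    · obtain ⟨f, rfl⟩ := Ideal.Quotient.mk_surjective a
      rw [f.as_sum, map_sum, map_sum]
      refine AddSubgroup.sum_mem _ fun d _ => ?_
      have := mem_sp (B := MvPolynomial τ Ω ⧸ J.map (MvPolynomial.map (algebraMap k Ω)))
        (S := (L.1 : Set Ω))
        (j := algebraMap (MvPolynomial τ k ⧸ J)
          (MvPolynomial τ Ω ⧸ J.map (MvPolynomial.map (algebraMap k Ω)))) (coeff d f).2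
        (Ideal.Quotient.mk J (monomial d 1))
      rwa [ha, map_monomial, map_one, smul_eq_mul, ← Ideal.Quotient.mk_algebraMap, ← map_mul,
        algebraMap_eq, C_mul_monomial, mul_one, show ((coeff d f : L.1) : Ω) =
          algebraMap L.1 Ω (coeff d f) from rfl, ← map_monomial, ← hb] at this
    · obtain ⟨f, rfl⟩ := Ideal.Quotient.mk_surjective a
      exact ⟨Ideal.Quotient.mk _ (MvPolynomial.map (algebraMap k L.1) f), by
        rw [hb, ha, MvPolynomial.map_map]; rfl⟩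
  · rw [Module.card_eq_pow_finrank (K := k) (V := L.1)]
    exact H _ finrank_pos.ne'

end Pool.Agent.Pav
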