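import Pool.Agent.P.MP_2ce3e7_ag.CP0
import Pool.Agent.P.MP_dd457d_ag.Bav.DescB

/-! Restriction of scalars preserves the relations between flat families. -/

set_option autoImplicit false

open Function Filter TensorProduct Module
open Pool.Agent.CXD Pool.Agent.Bav

noncomputable section

namespace Pool.Agent.Pav

section Co
variable (B B' P : Type) [CommRing B] [CommRing B'] [Algebra B B'] [AddCommGroup P] [Module B P]

/-- the coinduced module -/
def Co : Type := B' →ₗ[B] P

instance : AddCommGroup (Co B B' P) := inferInstanceAs (AddCommGroup (B' →ₗ[B] P))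

instance : Module B' (Co B B' P) where
  smul β f := LinearMap.comp f (LinearMap.mulRight B β)
  one_smul f := LinearMap.ext fun y => congrArg f.toFun (mul_one y)
  mul_smul a b f := LinearMap.ext fun y =>
    congrArg f.toFun (show y * (a * b) = y * a * b from (mul_assoc _ _ _).symm)
  smul_zero _ := rfl
  smul_add _ _ _ := rfl
  add_smul a b f := LinearMap.ext fun y =>
    (congrArg f.toFun (mul_add y a b)).trans (f.map_add _ _)
  zero_smul f := LinearMap.ext fun y => (congrArg f.toFun (mul_zero y)).trans f.map_zero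

variable {B B' P}

/-- evaluation -/
def Co.ap (f : Co B B' P) : B' →ₗ[B] P := f

theorem Co.smul_ap (β : B') (f : Co B B' P) (y : B') : (β • f).ap y = f.ap (y * β) := rfl

theorem Co.add_ap (f g : Co B B' P) (y : B') : (f + g).ap y = f.ap y + g.ap y := rfl

end Co

section Res
variable {B B' C C' : Type} [CommRing B] [CommRing B'] [CommRing C] [CommRing C'] [Algebra B B']
  [Algebra C C'] {ℬ : ℤ → Set B} {ℬ' : ℤ → Set B'} {𝒞 : ℤ → Set C} {𝒞' : ℤ → Set C'}
  (hB : ∀ c, ∀ a ∈ ℬ c, algebraMap B B' a ∈ ℬ' c)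
  (hC : ∀ c, ∀ a ∈ 𝒞 c, algebraMap C C' a ∈ 𝒞' c)

theorem res_bc {ι : Type} [Fintype ι] {φ : C →+* B} {φ' : C' →+* B'} (e : Basis ι C C')
    (b : Basis ι B B') (hb : ∀ i, φ' (e i) = b i)
    (hφ : ∀ c, φ' (algebraMap C C' c) = algebraMap B B' (φ c)) {W : GM 𝒞'} {M : GM ℬ'}
    (h : BC φ' W M) : BC φ (Desc.res hC W) (Desc.res hB M) := by
  obtain ⟨i, hi, hu⟩ := h
  refine ⟨⟨⟨i, i.map_add⟩, fun c x => (i.map_smulₛₗ (algebraMap C C' c) x).trans
    (congrArg (fun β => β • i x) (hφ c))⟩, hi, fun P _ _ j => ?_⟩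
  let j₀ : W.M →+ P := j.toAddMonoidHom
  have hj : ∀ (c : C) (w : W.M), j₀ (algebraMap C C' c • w) = φ c • j₀ w := j.map_smulₛₗ
  let J : W.M → Co B B' P := fun w => b.constr ℕ fun a => j₀ (e a • w)
  have h1 : ∀ w a, (J w).ap (b a) = j₀ (e a • w) := fun w a => b.constr_basis ℕ _ a
  have h2 : ∀ w y, (J w).ap (φ' y) = j₀ (y • w) := fun w y => by
    conv_lhs => rw [← e.sum_repr y]
    conv_rhs => rw [← e.sum_repr y]
    simp only [map_sum, Finset.sum_smul, Algebra.smul_def, map_mul, hφ, hb, mul_smul, hj]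
    exact Finset.sum_congr rfl fun a _ => by rw [← Algebra.smul_def, map_smul, h1]
  have ext : ∀ f g : Co B B' P, (∀ a, f.ap (b a) = g.ap (b a)) → f = g := fun f g => b.ext
  let j' : W.M →ₛₗ[φ'] Co B B' P :=
    ⟨⟨J, fun x y => ext _ _ fun a => by rw [Co.add_ap, h1, h1, h1, smul_add, map_add]⟩,
      fun c x => ext _ _ fun a => by
        rw [Co.smul_ap, h1, ← hb, ← map_mul, h2, mul_smul]⟩
  obtain ⟨g, hg, hg'⟩ := hu _ j'
  refine ⟨⟨⟨fun m => (g m).ap 1, fun x y => congrArg (fun f : Co B B' P => f.ap 1) (g.map_add x y)⟩,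
    fun β m => ?_⟩, fun w => ?_, fun g₁ hg₁ => LinearMap.ext fun m => ?_⟩
  · refine (congrArg (fun f : Co B B' P => f.ap 1) (g.map_smul (algebraMap B B' β) m)).trans ?_
    rw [Co.smul_ap, one_mul, Algebra.algebraMap_eq_smul_one, map_smul]
    rfl
  · refine (congrArg (fun f : Co B B' P => f.ap 1) (hg w)).trans ?_
    have := h2 w 1
    rw [map_one] at this
    exact this.trans (congrArg j₀ (one_smul C' (show W.M from w)))
  · let g₀ : M.M →+ P := g₁.toAddMonoidHom
    have h3 : ∀ (β : B) (x : M.M), g₀ (algebraMap B B' β • x) = β • g₀ x := g₁.map_smul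
    let G : M.M → Co B B' P := fun x => (⟨⟨fun y => g₀ (y • x), fun y z => by
      rw [add_smul, map_add]⟩, fun β y => by
        change g₀ ((β • y) • x) = β • g₀ (y • x)
        rw [Algebra.smul_def, mul_smul, h3]⟩ : B' →ₗ[B] P)
    have h4 : ∀ x y, (G x).ap y = g₀ (y • x) := fun _ _ => rfl
    let G' : M.M →ₗ[B'] Co B B' P :=
      ⟨⟨G, fun x y => ext _ _ fun a => by rw [Co.add_ap, h4, h4, h4, smul_add, map_add]⟩,
        fun β x => ext _ _ fun a => by rw [Co.smul_ap, h4, h4, mul_smul]; rfl⟩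
    have h5 : G' = g := hg' G' fun w => ext _ _ fun a => by
      refine (h4 _ _).trans (Eq.trans ?_ (h1 w a).symm)
      rw [← hb, ← i.map_smulₛₗ]
      exact hg₁ _
    have h6 := (h4 m 1).trans (congrArg g₀ (one_smul B' (show M.M from m)))
    exact h6.symm.trans (congrArg (fun f : M.M →ₗ[B'] Co B B' P => (f m).ap 1) h5)

theorem res_fin [Module.Finite B B'] {N : GM ℬ'} (h : Module.Finite B' N.M) :
    Module.Finite B (Desc.res hB N).M := by
  let : Module B N.M := (Desc.res hB N).mod
  have : IsScalarTower B B' N.M := ⟨fun a β x => by rw [Algebra.smul_def, mul_smul]; rfl⟩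
  exact Module.Finite.trans (R := B) B' N.M

/-- restriction of scalars of a finitely generated module -/
def resF [Module.Finite B B'] (N : FGM ℬ') : FGM ℬ := ⟨Desc.res hB N.1, res_fin hB N.2⟩

theorem res_ses {M N P : GM ℬ'} (h : Ses M N P) :
    Ses (Desc.res hB M) (Desc.res hB N) (Desc.res hB P) := by
  obtain ⟨f, g, h1, h2, h3⟩ := h
  exact ⟨⟨f.toAddHom, fun a x => f.map_smul (algebraMap B B' a) x⟩,
    ⟨g.toAddHom, fun a x => g.map_smul (algebraMap B B' a) x⟩, h1, h2, h3⟩

theorem res_fl {T T' : Type} [CommRing T] [CommRing T'] [Algebra T T'] [Algebra T B]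
    [Algebra T' B'] [Module.Flat T T']
    (e : ∀ t, algebraMap B B' (algebraMap T B t) = algebraMap T' B' (algebraMap T T' t))
    (h0 : ∀ t, algebraMap T' B' t ∈ ℬ' 0) {M : GM ℬ'} (h : Fl T' M) :
    Fl T (Desc.res hB M) := by
  refine Eventually.mono h fun d hd => ?_
  let : Module T' M.M := Module.compHom M.M (algebraMap T' B')
  let : Module T M.M := Module.compHom (Desc.res hB M).M (algebraMap T B)
  have : IsScalarTower T T' M.M := ⟨fun a b x => by
    change algebraMap T' B' (a • b) • x =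
      algebraMap B B' (algebraMap T B a) • algebraMap T' B' b • x
    rw [Algebra.smul_def, map_mul, mul_smul, e]⟩
  have h1 : Module.Flat T' (Submodule.span T' (Set.range (M.π d))) := hd
  have h2 : Module.Flat T (Submodule.span T' (Set.range (M.π d))) := Module.Flat.trans T T' _
  have h3 : Submodule.span T (Set.range (M.π d)) =
      (Submodule.span T' (Set.range (M.π d))).restrictScalars T := by
    refine le_antisymm (Submodule.span_le_restrictScalars _ _ _) fun x hx =>
      Submodule.subset_span ?_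
    induction hx using Submodule.span_induction with
    | mem x hx => exact hx
    | zero => exact ⟨0, map_zero _⟩
    | add x y _ _ hx hy =>
      obtain ⟨x, rfl⟩ := hx
      obtain ⟨y, rfl⟩ := hy
      exact ⟨x + y, map_add _ _ _⟩
    | smul t x _ hx =>
      obtain ⟨x, rfl⟩ := hx
      exact ⟨_, Desc.π_zero M (h0 t) d x⟩
  change Module.Flat T (Submodule.span T (Set.range (M.π d)))
  rw [h3]
  exact h2

end Res

section Push
variable (k L : Type) [Field k] [Field L] [Algebra k L] (B B' : Type) [CommRing B] [CommRing B']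
  [Algebra k B] [Algebra L B'] [Algebra B B'] [Algebra k B'] [IsScalarTower k B B']
  [IsScalarTower k L B'] [h : Algebra.IsPushout k L B B']

/-- the basis given by a basis of the field extension -/
def pb {ι : Type} (l : Basis ι k L) : Basis ι B B' := h.symm.out.basis l

theorem pb_apply {ι : Type} (l : Basis ι k L) (i : ι) : pb k L B B' l i = algebraMap L B' (l i) :=
  h.symm.out.basis_apply l i

include h in
theorem push_fin [Module.Finite k L] : Module.Finite B B' :=
  Module.Finite.of_basis (pb k L B B' (Module.finBasis k L))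

include h in
theorem push_flat : Module.Flat B B' :=
  have := Module.Free.of_basis (pb k L B B' (Basis.ofVectorSpace k L))
  inferInstance

attribute [local instance] Polynomial.algebra in
theorem push_poly : Algebra.IsPushout k L (Polynomial B) (Polynomial B') :=
  have := h.symm
  ((Algebra.IsPushout.comp_iff k B (T := Polynomial B) L B').2 inferInstance).symm

end Push

section Ten
variable (k L : Type) [Field k] [Field L] [Algebra k L] (T T' A A' : Type) [CommRing T]
  [CommRing T'] [CommRing A] [CommRing A'] [Algebra k T] [Algebra L T'] [Algebra T T']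
  [Algebra k T'] [IsScalarTower k T T'] [IsScalarTower k L T'] [Algebra k A] [Algebra L A']
  [Algebra A A'] [Algebra k A'] [IsScalarTower k A A'] [IsScalarTower k L A']

/-- the map between the tensor products -/
def tm : T ⊗[k] A →ₐ[k] T' ⊗[L] A' :=
  Algebra.TensorProduct.lift
    ((Algebra.TensorProduct.includeLeft : T' →ₐ[k] T' ⊗[L] A').comp (IsScalarTower.toAlgHom k T T'))
    (((Algebra.TensorProduct.includeRight : A' →ₐ[L] T' ⊗[L] A').restrictScalars k).comp
      (IsScalarTower.toAlgHom k A A')) fun _ _ => Commute.all _ _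

theorem tm_tmul (t : T) (a : A) :
    tm k L T T' A A' (t ⊗ₜ a) = algebraMap T T' t ⊗ₜ algebraMap A A' a := by
  simp [tm]

/-- the algebra structure given by this map -/
abbrev tA : Algebra (T ⊗[k] A) (T' ⊗[L] A') := (tm k L T T' A A').toRingHom.toAlgebra

attribute [local instance] tA

theorem alg_tmul (t : T) (a : A) : algebraMap (T ⊗[k] A) (T' ⊗[L] A') (t ⊗ₜ a) =
    algebraMap T T' t ⊗ₜ algebraMap A A' a := tm_tmul k L T T' A A' t a

theorem tA_tower : IsScalarTower k (T ⊗[k] A) (T' ⊗[L] A') :=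
  .of_algebraMap_eq fun c => ((tm k L T T' A A').commutes c).symm

attribute [local instance] tA_tower

variable [hT : Algebra.IsPushout k L T T'] [hA : Algebra.IsPushout k L A A']

theorem push_ten : Algebra.IsPushout k L (T ⊗[k] A) (T' ⊗[L] A') :=
  ⟨.of_equiv ((AlgebraTensorModule.distribBaseChange k L T A).trans
    (TensorProduct.congr hT.out.equiv hA.out.equiv)) fun x => by
      induction x with
      | zero => simp
      | add x y hx hy => simp only [tmul_add, map_add, hx, hy]
      | tmul t a =>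
        simp [IsBaseChange.equiv_tmul, alg_tmul, AlgebraTensorModule.distribBaseChange]⟩

variable {k L A A'} {𝒜 : ℤ → Set A} {𝒜' : ℤ → Set A'}

omit hT hA in
theorem tgr_map (h : Desc.Cmp k L 𝒜 𝒜') (c : ℤ) :
    ∀ a ∈ tgr k T 𝒜 c, algebraMap (T ⊗[k] A) (T' ⊗[L] A') a ∈ tgr L T' 𝒜' c := by
  rintro _ ⟨t, a, ha, rfl⟩
  exact ⟨_, _, h.map c a ha, alg_tmul k L T T' A A' t a⟩

omit hA in
theorem cmp_tgr (h : Desc.Cmp k L 𝒜 𝒜') : Desc.Cmp k L (tgr k T 𝒜) (tgr L T' 𝒜') := by
  have h1 : (1 : A) ∈ 𝒜 0 := by simpa using h.cst 1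
  have h2 : (1 : A') ∈ 𝒜' 0 := by simpa using h.cst' 1
  refine ⟨fun x => ?_, fun r => ⟨_, 1, h1, Algebra.TensorProduct.algebraMap_apply r⟩,
    fun r => ⟨_, 1, h2, Algebra.TensorProduct.algebraMap_apply r⟩, tgr_map T T' h, ?_⟩
  · induction x with
    | zero => exact zero_mem _
    | add x y hx hy => exact add_mem hx hy
    | tmul t a =>
      refine (AddSubgroup.closure_le ((AddSubgroup.closure (⋃ c, tgr k T 𝒜 c)).comap
        (TensorProduct.mk k T A t).toAddMonoidHom)).2 (fun b hb => ?_) (h.gen a)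
      obtain ⟨c, hc⟩ := Set.mem_iUnion.1 hb
      exact AddSubgroup.subset_closure (Set.mem_iUnion.2 ⟨c, t, b, hc, rfl⟩)
  · rintro c _ ⟨t, a, ha, rfl⟩
    let H := Desc.sp (T' ⊗[L] A') (Set.univ : Set L) fun a : tgr k T 𝒜 c =>
      algebraMap (T ⊗[k] A) (T' ⊗[L] A') a
    refine Desc.sp_le (H := H.comap (TensorProduct.mk L T' A' t).toAddMonoidHom)
      (fun ω _ b => ?_) (h.dec c a ha)
    refine Desc.sp_le (H := H.comap ((TensorProduct.mk L T' A').flip
      (algebraMap L A' ω • algebraMap A A' b)).toAddMonoidHom) (fun ω' _ s => ?_)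
      ((Desc.ring_spec (A := T) (B := T') k L).2 t)
    have := Desc.mem_sp (B := T' ⊗[L] A') (j := fun a : tgr k T 𝒜 c =>
      algebraMap (T ⊗[k] A) (T' ⊗[L] A') a) (Set.mem_univ (ω' * ω)) ⟨_, s, b, b.2, rfl⟩
    rw [alg_tmul, algebraMap_smul, mul_smul, ← tmul_smul, smul_tmul'] at this
    change (algebraMap L T' ω' • algebraMap T T' s) ⊗ₜ[L]
      (algebraMap L A' ω • algebraMap A A' b) ∈ H
    rwa [algebraMap_smul, algebraMap_smul]

attribute [local instance] Polynomial.algebra

theorem res_rels [Module.Finite k L] (h : Desc.Cmp k L 𝒜 𝒜')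
    [Module.Finite (T ⊗[k] A) (T' ⊗[L] A')] {y : FreeAbelianGroup (FGM (tgr L T' 𝒜'))}
    (hy : y ∈ relsP L T' 𝒜') :
    FreeAbelianGroup.map (resF (tgr_map T T' h)) y ∈ relsP k T 𝒜 := by
  have h2 : (1 : A') ∈ 𝒜' 0 := by simpa using h.cst' 1
  have p1 := push_poly k L T T'
  have p2 := push_ten k L T T' A A'
  have p3 := push_ten k L (Polynomial T) (Polynomial T') A A'
  have f1 := push_flat k L T T'
  have f2 := push_flat k L (Polynomial T) (Polynomial T')
  have f3 := push_fin k L (Polynomial T ⊗[k] A) (Polynomial T' ⊗[L] A')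
  have f4 := push_fin k L A A'
  let l := Module.finBasis k L
  have hf : ∀ {M : GM (tgr L T' 𝒜')}, Fl T' M → Fl T (Desc.res (tgr_map T T' h) M) :=
    res_fl _ (fun t => (alg_tmul k L T T' A A' t 1).trans (by rw [map_one]; rfl))
      fun t => show _ ∈ tgr L T' 𝒜' 0 from ⟨t, 1, h2, rfl⟩
  have he : ∀ (a : T) {W : GM (tgr L (Polynomial T') 𝒜')} {M : GM (tgr L T' 𝒜')},
      BC (evm L T' A' (algebraMap T T' a)) W M → BC (evm k T A a)
        (Desc.res (tgr_map (Polynomial T) (Polynomial T') h) W) (Desc.res (tgr_map T T' h) M) :=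
    fun a => res_bc _ _ (pb k L _ _ l) (pb k L _ _ l) (fun i => by
      rw [pb_apply, pb_apply]
      exact (Algebra.TensorProduct.map ((Polynomial.aeval _).restrictScalars L)
        (AlgHom.id L A')).commutes _) fun c => by
      induction c with
      | zero => simp only [map_zero]
      | add x y hx hy => simp only [map_add, hx, hy]
      | tmul t b =>
        rw [alg_tmul]
        refine Eq.trans ?_ (alg_tmul k L T T' A A' (Polynomial.aeval a t) b).symm
        refine congrArg (fun s => s ⊗ₜ[L] algebraMap A A' b) ?_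
        change Polynomial.aeval (algebraMap T T' a) (t.map (algebraMap T T')) = _
        rw [Polynomial.aeval_map_algebraMap, Polynomial.aeval_algebraMap_apply]
  have hm := tgr_map T T' h
  refine (AddSubgroup.closure_le ((relsP k T 𝒜).comap
    (FreeAbelianGroup.map (resF (tgr_map T T' h))))).2 ?_ hy
  rintro _ (⟨M, N, P, hs, h1, h3, h4, rfl⟩ | ⟨M, hM, rfl⟩ | ⟨W, M, N, hW, h1, h3, rfl⟩ |
    ⟨N, M, h1, rfl⟩) <;> refine AddSubgroup.subset_closure ?_
  · exact Or.inl ⟨resF hm M, resF hm N, resF hm P, res_ses hm hs, hf h1, hf h3, hf h4, by simp⟩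
  · exact Or.inr (Or.inl ⟨resF hm M, hM, by simp⟩)
  · refine Or.inr (Or.inr (Or.inl ⟨resF (tgr_map (Polynomial T) (Polynomial T') h) W, resF hm M,
      resF hm N, ?_, he 0 (by rwa [map_zero]), he 1 (by rwa [map_one]), by simp⟩))
    exact res_fl (tgr_map (Polynomial T) (Polynomial T') h)
      (fun t => (alg_tmul k L _ _ A A' t 1).trans (by rw [map_one]; rfl))
      (fun t => show _ ∈ tgr L (Polynomial T') 𝒜' 0 from ⟨t, 1, h2, rfl⟩) hW
  · refine Or.inr (Or.inr (Or.inr ⟨resF h.map N, resF hm M, ?_, by simp⟩))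
    refine res_bc hm h.map (pb k L _ _ l) (pb k L _ _ l) (fun i => ?_) (fun c => ?_) h1
    · rw [pb_apply, pb_apply]
      exact (Algebra.TensorProduct.includeRight : A' →ₐ[L] T' ⊗[L] A').commutes _
    · exact ((alg_tmul k L T T' A A' 1 c).trans (by rw [map_one]; rfl)).symm

end Ten

open MvPolynomial in
theorem push_quo (k L : Type) [Field k] [Field L] [Algebra k L] {τ : Type}
    (J : Ideal (MvPolynomial τ k)) (I : Ideal (MvPolynomial τ L))
    (hI : I = J.map (MvPolynomial.map (algebraMap k L))) :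
    ∃ (_ : Algebra (MvPolynomial τ k ⧸ J) (MvPolynomial τ L ⧸ I))
      (_ : IsScalarTower k (MvPolynomial τ k ⧸ J) (MvPolynomial τ L ⧸ I)),
      Algebra.IsPushout k L (MvPolynomial τ k ⧸ J) (MvPolynomial τ L ⧸ I) ∧
        Desc.Cmp k L (hom J) (hom I) ∧ ∀ i, algebraMap _ _ (crd J i) = crd I i := by
  subst hI
  let : Algebra (MvPolynomial τ k) (MvPolynomial τ L) := algebraMvPolynomial
  let I := J.map (algebraMap (MvPolynomial τ k) (MvPolynomial τ L))
  have ha : ∀ g, algebraMap (MvPolynomial τ k ⧸ J) (MvPolynomial τ L ⧸ I)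
      (Ideal.Quotient.mk J g) = Ideal.Quotient.mk I (MvPolynomial.map (algebraMap k L) g) := fun _ => rfl
  have : IsScalarTower k (MvPolynomial τ k ⧸ J) (MvPolynomial τ L ⧸ I) :=
    .of_algebraMap_eq (R := k) (S := MvPolynomial τ k ⧸ J) (A := MvPolynomial τ L ⧸ I)
      fun r => congrArg (Ideal.Quotient.mk I) (map_C (algebraMap k L) r).symm
  refine ⟨inferInstanceAs (Algebra (MvPolynomial τ k ⧸ J) (MvPolynomial τ L ⧸ I)), this,
    (⟨.of_equiv ((Algebra.IsPushout.cancelBaseChange k L (MvPolynomial τ k) (MvPolynomial τ L)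
      (MvPolynomial τ k ⧸ J)).symm.trans ((Algebra.TensorProduct.quotIdealMapEquivTensorQuot
        (MvPolynomial τ L) J).symm.toLinearEquiv.restrictScalars L)) fun x => ?_⟩ :
      Algebra.IsPushout k L (MvPolynomial τ k ⧸ J) (MvPolynomial τ L ⧸ I)),
    (⟨fun a => ?_, fun r => ⟨0, C r, rfl, isHomogeneous_C _ _, rfl⟩,
    fun r => ⟨0, C r, rfl, isHomogeneous_C _ _, rfl⟩, ?_, ?_⟩ : Desc.Cmp k L (hom J) (hom I)),
    fun i => congrArg (Ideal.Quotient.mk I) (map_X _ i)⟩
  · obtain ⟨g, rfl⟩ := Ideal.Quotient.mk_surjective x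
    simp only [LinearEquiv.trans_apply, Algebra.IsPushout.cancelBaseChange_symm_tmul, map_one]
    exact congrArg (Ideal.Quotient.mk I) ((Algebra.smul_def g 1).trans (mul_one _))
  · obtain ⟨f, rfl⟩ := Ideal.Quotient.mk_surjective a
    rw [← f.sum_homogeneousComponent, map_sum]
    exact sum_mem fun m _ => AddSubgroup.subset_closure
      (Set.mem_iUnion.2 ⟨m, m, _, rfl, homogeneousComponent_isHomogeneous m f, rfl⟩)
  · rintro c _ ⟨m, f, hm, hf, rfl⟩
    exact ⟨m, MvPolynomial.map (algebraMap k L) f, hm, hf.map _, rfl⟩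
  · rintro c _ ⟨m, f, hm, hf, rfl⟩
    rw [f.as_sum, map_sum]
    refine AddSubgroup.sum_mem _ fun d hd => ?_
    have := Desc.mem_sp (B := MvPolynomial τ L ⧸ I) (j := fun a : hom J c =>
      algebraMap (MvPolynomial τ k ⧸ J) (MvPolynomial τ L ⧸ I) a) (Set.mem_univ (coeff d f))
      ⟨_, m, monomial d 1, hm, isHomogeneous_monomial _ (by
        rw [Finsupp.degree_eq_weight_one]; exact hf (MvPolynomial.mem_support_iff.1 hd)), rfl⟩
    rwa [ha, map_monomial, map_one, smul_eq_mul, ← Ideal.Quotient.mk_algebraMap, ← map_mul,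
      algebraMap_eq, C_mul_monomial, mul_one] at this

end Pool.Agent.Pav
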