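import Pool.Agent.K.MP_e12fcd_ag.C333
import Pool.Agent.P.MP_dd457d_ag.Bav.DescB

/-! Base change and restriction of scalars of vector bundles along a finite field extension. -/

set_option autoImplicit false

open Function Filter TensorProduct Module
open Pool.Agent.CXD Pool.Agent.Bav

noncomputable section

namespace Pool.Agent.Pav

section
variable {B : Type} [CommRing B] {ℬ : ℤ → Set B} (T : Type) [CommRing T] [Algebra T B]

theorem fl_congr {M N : GM ℬ} (f : M.M →ₗ[B] N.M) (hf : IsG f) (hb : Bijective f) (h : Fl T M) :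
    Fl T N := by
  refine Eventually.mono h fun d hd => ?_
  let := Module.compHom M.M (algebraMap T B)
  let := Module.compHom N.M (algebraMap T B)
  let f' : M.M →ₗ[T] N.M := ⟨f.toAddMonoidHom, fun t x => f.map_smul (algebraMap T B t) x⟩
  have e : (Submodule.span T (Set.range (M.π d))).map f' = Submodule.span T (Set.range (N.π d)) := by
    rw [Submodule.map_span]
    congr 1
    ext y
    constructor
    · rintro ⟨_, ⟨x, rfl⟩, rfl⟩
      exact ⟨f x, (hf d x).symm⟩
    · rintro ⟨y, rfl⟩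
      obtain ⟨x, rfl⟩ := hb.2 y
      exact ⟨_, ⟨x, rfl⟩, hf d x⟩
  exact Module.Flat.of_linearEquiv
    ((Submodule.equivMapOfInjective f' hb.1 _).trans (LinearEquiv.ofEq _ _ e)).symm

theorem fl_pw {V : GM ℬ} (h : Fl T V) (n : ℕ) : Fl T (Desc.pw n V) := by
  refine Eventually.mono h fun d hd => ?_
  let := Module.compHom V.M (algebraMap T B)
  let S := Submodule.span T (Set.range (V.π d))
  have : Module.Flat T S := hd
  have : Module.Flat T (Fin n → S) :=
    Module.Flat.of_linearEquiv (DFinsupp.linearEquivFunOnFintype (M := fun _ : Fin n => S)).symm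
  let g : (Fin n → S) →ₗ[T] Fin n → V.M := S.subtype.compLeft (Fin n)
  have hg : Injective g := fun x y e => funext fun i => Subtype.ext (congrFun e i)
  have e : LinearMap.range g =
      Submodule.span T (Set.range ((V.π d).compLeft (Fin n)) : Set (Fin n → V.M)) := by
    refine le_antisymm ?_ (Submodule.span_le.2 ?_)
    · rintro _ ⟨x, rfl⟩
      rw [← Finset.univ_sum_single (g x)]
      refine Submodule.sum_mem _ fun i _ => ?_
      refine (Submodule.span_le (p := Submodule.comap (LinearMap.single T (fun _ => V.M) i)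
        (Submodule.span T (Set.range ((V.π d).compLeft (Fin n)))))).2 ?_ (x i).2
      rintro _ ⟨y, rfl⟩
      exact Submodule.subset_span ⟨Pi.single i y,
        funext (Pi.apply_single (fun _ => V.π d) (fun _ => map_zero _) i y)⟩
    · rintro _ ⟨x, rfl⟩
      exact ⟨fun i => ⟨V.π d (x i), Submodule.subset_span ⟨_, rfl⟩⟩, rfl⟩
  exact Module.Flat.of_linearEquiv
    ((LinearEquiv.ofInjective g hg).trans (LinearEquiv.ofEq _ _ e)).symm

variable {H : AddSubgroup (FreeAbelianGroup (FGM ℬ))}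

theorem pw_mem' (hS : ∀ y, RS T y → y ∈ H) (hT : ∀ y, RT y → y ∈ H) (V : FGM ℬ) (hV : Fl T V.1)
    (n : ℕ) : FreeAbelianGroup.of (Desc.pwF n V) - n • FreeAbelianGroup.of V ∈ H := by
  induction n with
  | zero =>
    simpa using hT _ ⟨Desc.pwF 0 V, Eventually.of_forall fun _ =>
      AddMonoidHom.ext fun _ => funext fun i => i.elim0, rfl⟩
  | succ n ih =>
    have h : Ses V.1 (Desc.pwF (n + 1) V).1 (Desc.pwF n V).1 := by
      refine ⟨LinearMap.single B (fun _ : Fin (n + 1) => V.1.M) 0,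
        LinearMap.funLeft B V.1.M Fin.succ, fun d x => funext fun i => ?_, fun _ _ => rfl,
        Pi.single_injective (M := fun _ : Fin (n + 1) => V.1.M) 0, fun y => ⟨Fin.cons 0 y, rfl⟩,
        fun y => ⟨fun hy => ⟨y 0, funext (Fin.cases rfl fun j => (congrFun hy j).symm)⟩, ?_⟩⟩
      · exact (Pi.apply_single (fun _ => V.1.π d) (fun _ => map_zero _) 0 x i).symm
      · rintro ⟨x, rfl⟩
        rfl
    have := add_mem (hS _ ⟨V, Desc.pwF (n + 1) V, Desc.pwF n V, h, hV, fl_pw T hV _, fl_pw T hV _,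
      rfl⟩) ih
    rwa [show ∀ a b c : FreeAbelianGroup (FGM ℬ), a - b - c + (c - n • b) = a - (n + 1) • b from
      fun a b c => by rw [succ_nsmul]; abel] at this

theorem iso_mem (hS : ∀ y, RS T y → y ∈ H) (hT : ∀ y, RT y → y ∈ H) {M N : FGM ℬ}
    (f : M.1.M →ₗ[B] N.1.M) (hf : IsG f) (hb : Bijective f) (h : Fl T M.1) :
    FreeAbelianGroup.of N - FreeAbelianGroup.of M ∈ H := by
  have h0 := pw_mem' T hS hT M h 0
  have h1 := hS _ ⟨M, N, Desc.pwF 0 M, ⟨f, 0, hf, fun _ _ => funext fun i => i.elim0, hb.1,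
    fun y => ⟨0, funext fun i => i.elim0⟩,
    fun y => ⟨fun _ => hb.2 y, fun _ => rfl⟩⟩, h, fl_congr T f hf hb h, fl_pw T h 0, rfl⟩
  simpa using add_mem h1 h0

end

section
variable {k L : Type} [Field k] [Field L] [Algebra k L] {B B' : Type} [CommRing B] [CommRing B']
  [Algebra k B] [Algebra L B'] [Algebra B B'] [Algebra k B'] [IsScalarTower k B B']
  [IsScalarTower k L B'] [Algebra.IsPushout k L B B'] {ℬ : ℤ → Set B} {ℬ' : ℤ → Set B'}

theorem vb_bc (h : Desc.Cmp k L ℬ ℬ') {σ : Type} {z : σ → B} {r : ℕ} {V : GM ℬ}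
    (hV : VB z r V) : VB (fun i => algebraMap B B' (z i)) r (h.bc V) := by
  intro p _ hp
  let q := p.comap (algebraMap B B')
  obtain ⟨e⟩ := hV q hp
  let Bq := Localization.AtPrime q
  let Bp := Localization.AtPrime p
  let : Algebra Bq Bp := (Localization.localRingHom q p (algebraMap B B') rfl).toAlgebra
  have : IsScalarTower B Bq Bp := IsScalarTower.of_algebraMap_eq fun a =>
    (IsScalarTower.algebraMap_apply B B' Bp a).trans
      (Localization.localRingHom_to_map q p (algebraMap B B') rfl a).symm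
  exact ⟨(LocalizedModule.equivTensorProduct _ (B' ⊗[B] V.M)).trans
    ((AlgebraTensorModule.cancelBaseChange B B' Bp Bp V.M).trans
    ((AlgebraTensorModule.cancelBaseChange B Bq Bp Bp V.M).symm.trans
    ((AlgebraTensorModule.congr (LinearEquiv.refl Bp Bp)
      ((LocalizedModule.equivTensorProduct _ V.M).symm.trans e)).trans
    (piScalarRight Bq Bp Bp (Fin r)))))⟩

theorem res_bc_iso [Module.Finite k L] (h : Desc.Cmp k L ℬ ℬ') (V : GM ℬ) :
    ∃ (f : (Desc.pw (finrank k L) V).M →ₗ[B] (Desc.res h.map (h.bc V)).M), IsG f ∧ Bijective f := by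
  obtain ⟨m, j, hm, hj, hr⟩ := (h.form_bc V).up (L := ⊤) h.cst' le_top
  rw [IntermediateField.finrank_bot, one_mul, IntermediateField.finrank_top'] at hm
  subst hm
  exact ⟨⟨⟨j, j.map_add⟩, hj.lin⟩, hj.gr, hj.inj, fun y => hr.ge ((h.form_bc V).top y)⟩

theorem res_bc_finite [Module.Finite k L] (h : Desc.Cmp k L ℬ ℬ') (V : FGM ℬ) :
    Module.Finite B (Desc.res h.map (h.bc V.1)).M := by
  obtain ⟨f, -, hb⟩ := res_bc_iso h V.1
  have : Module.Finite B (Desc.pw (finrank k L) V.1).M := (Desc.pwF (finrank k L) V).2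
  exact Module.Finite.of_surjective f hb.2

theorem res_bc_mem' [Module.Finite k L] (T : Type) [CommRing T] [Algebra T B]
    {H : AddSubgroup (FreeAbelianGroup (FGM ℬ))} (hS : ∀ y, RS T y → y ∈ H)
    (hT : ∀ y, RT y → y ∈ H) (h : Desc.Cmp k L ℬ ℬ') (V : FGM ℬ) (hV : Fl T V.1)
    (hf : Module.Finite B (Desc.res h.map (h.bc V.1)).M) :
    FreeAbelianGroup.of (α := FGM ℬ) ⟨Desc.res h.map (h.bc V.1), hf⟩ -
      finrank k L • FreeAbelianGroup.of V ∈ H := by
  obtain ⟨f, hg, hb⟩ := res_bc_iso h V.1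
  have := add_mem (iso_mem T hS hT (M := Desc.pwF _ V) (N := ⟨_, hf⟩) f hg hb (fl_pw T hV _))
    (pw_mem' T hS hT V hV (finrank k L))
  simpa using this

end

section
variable {k L T A : Type} [Field k] [Field L] [Algebra k L] [CommRing T] [Algebra k T] [CommRing A]
  [Algebra k A] {𝒜 : ℤ → Set A}

theorem res_bc_mem [Module.Finite k L] {B' : Type} [CommRing B'] [Algebra L B']
    [Algebra (T ⊗[k] A) B'] [Algebra k B'] [IsScalarTower k (T ⊗[k] A) B'] [IsScalarTower k L B']
    [Algebra.IsPushout k L (T ⊗[k] A) B'] {ℬ' : ℤ → Set B'} (h : Desc.Cmp k L (tgr k T 𝒜) ℬ')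
    (V : FGM (tgr k T 𝒜)) (hV : Fl T V.1)
    (hf : Module.Finite (T ⊗[k] A) (Desc.res h.map (h.bc V.1)).M) :
    ∃ m : ℕ, 0 < m ∧ FreeAbelianGroup.of (α := FGM (tgr k T 𝒜)) ⟨Desc.res h.map (h.bc V.1), hf⟩ -
      m • FreeAbelianGroup.of V ∈ relsP k T 𝒜 :=
  ⟨_, finrank_pos, res_bc_mem' T (fun _ hy => AddSubgroup.subset_closure (Or.inl hy))
    (fun _ hy => AddSubgroup.subset_closure (Or.inr (Or.inl hy))) h V hV hf⟩

open scoped LaurentPolynomial in
theorem vb_fl {σ : Type} [Fintype σ] {z : σ → A} {θ : A →ₐ[k] A[T;T⁻¹]} [Gd 𝒜] [Gk k 𝒜]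
    [IsNoetherianRing T] (h : Std 𝒜 z θ) {r : ℕ} {V : FGM (tgr k T 𝒜)}
    (hV : VB (fun i => (1 : T) ⊗ₜ[k] z i) r V.1) : Fl T V.1 := by
  have := h.noeth_one T
  obtain ⟨U₀, e₀, hU⟩ := h.exists_rg
  have hB := hU.gbx (k := k) (T := T)
  obtain ⟨α, β, _, _, ρ, g₂, u, hu, E, g, hg, h1, h2, h3, h4, h5⟩ :=
    exists_univ (k := k) (z := fun i => inr k T A (z i)) dir_int
      (fun i => tmul_mem_tgr 1 (mem_cl (h.deg i))) hB V.2 hV
  exact ef_iff.1 ((h.ef_iso (tens_finite (h := hu) h3.1 hB.finite) V.2 hg h4 h5).1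
    (h.tens_ef hu h1 h3 hU.finite))

end

end Pool.Agent.Pav
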