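import Pool.Agent.P.MP_2ce3e7_ag.Pav.Ev
import Pool.Agent.P.MP_2ce3e7_ag.Pav.ResA
import Pool.Agent.P.MP_2ce3e7_ag.Pav.ResB

/-! The vanishing descends along a finite extension of the ground field. -/

set_option autoImplicit false

open Function TensorProduct Module
open Pool.Agent.CXD Pool.Agent.Bav

noncomputable section

namespace Pool.Agent.Pav

attribute [local instance] tA tA_tower in
theorem par_res {k L : Type} [Field k] [Field L] [Algebra k L] [Module.Finite k L]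
    {T T' A A' σ : Type} [CommRing T] [CommRing T'] [CommRing A] [CommRing A'] [Algebra k T]
    [Algebra L T'] [Algebra T T'] [Algebra k T'] [IsScalarTower k T T'] [IsScalarTower k L T']
    [Algebra k A] [Algebra L A'] [Algebra A A'] [Algebra k A'] [IsScalarTower k A A']
    [IsScalarTower k L A'] [Algebra.IsPushout k L T T'] [Algebra.IsPushout k L A A']
    {𝒜 : ℤ → Set A} {𝒜' : ℤ → Set A'} (h : Desc.Cmp k L 𝒜 𝒜') {z : σ → A} {z' : σ → A'}
    (hz : ∀ i, algebraMap A A' (z i) = z' i)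
    (hF : ∀ (r : ℕ) (V : FGM (tgr k T 𝒜)), VB (fun i => (1 : T) ⊗ₜ[k] z i) r V.1 → Fl T V.1)
    (hP : Par L T' 𝒜' z') : Par k T 𝒜 z := fun r V hV => by
  have := push_ten k L T T' A A'
  have := push_fin k L (T ⊗[k] A) (T' ⊗[L] A')
  have hc := cmp_tgr T T' h
  have h1 := vb_bc hc hV
  rw [show (fun i => algebraMap (T ⊗[k] A) (T' ⊗[L] A') ((1 : T) ⊗ₜ[k] z i)) =
    fun i => (1 : T') ⊗ₜ[L] z' i from funext fun i => by rw [alg_tmul, map_one, hz]] at h1
  obtain ⟨c, hc0, h2⟩ := hP r ⟨hc.bc V.1,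
    have := V.2; inferInstanceAs (Module.Finite _ ((T' ⊗[L] A') ⊗[T ⊗[k] A] V.1.M))⟩ h1
  obtain ⟨m, hm, h3⟩ := res_bc_mem hc V (hF r V hV) (res_bc_finite hc V)
  have h4 := res_rels T T' h h2
  rw [map_nsmul] at h4
  refine ⟨c * m, Nat.mul_pos hc0 hm, ?_⟩
  have h5 := sub_mem h4 (nsmul_mem h3 c)
  rw [smul_sub, mul_comm c, mul_nsmul] at *
  exact (sub_sub_cancel _ _).subst (motive := fun y => y ∈ relsP k T 𝒜) h5

open MvPolynomial in
theorem p_Res : S_Res := fun k L _ _ _ _ _ τ _ J hJ s _ hP => by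
  obtain ⟨θ, hθ⟩ := exists_std J hJ
  obtain ⟨_, _, _, h1, h2⟩ := push_quo k L J _ rfl
  obtain ⟨_, _, _, -, -⟩ := push_quo k L
    (Ideal.span {(∑ i, X i - 1 : MvPolynomial (Fin (s + 2)) k), ∏ i, X i})
    (Ideal.span {(∑ i, X i - 1 : MvPolynomial (Fin (s + 2)) L), ∏ i, X i})
    (by simp [Ideal.map_span, Set.image_pair])
  exact par_res h1 h2 (fun _ _ hV => vb_fl hθ hV) hP

end Pool.Agent.Pav
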