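import Pool.Agent.P.MP_dd457d_ag.Bav.CalcC

/-! The graphs of the powers of the Frobenius element modulo exterior products. -/

set_option autoImplicit false

noncomputable section

open Matrix

namespace Pool.Agent.Pav

open Pool.Agent.Bav Pool.Agent.Tav.Det

/-- `Q = l ^ E` and `z` is the `E`-th power of a positive rational number -/
def PwC (Q : ℕ) (z : ℂ) : Prop :=
  ∃ (l E : ℕ) (μ : ℚ), l.Prime ∧ Q = l ^ E ∧ 0 < μ ∧ z = (μ : ℂ) ^ E

/-- the matrix of the graph of `a` -/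
def col {Λ : Type} [CommRing Λ] (a : Λ) : Matrix (Unit ⊕ Unit) Unit Λ :=
  Matrix.fromRows (1 : Matrix Unit Unit Λ) (Matrix.of fun _ _ : Unit => a)

theorem int_of_rat {μ : ℚ} (h : IsIntegral ℤ (μ : ℂ)) : ∃ m : ℤ, (m : ℚ) = μ :=
  IsIntegrallyClosed.isIntegral_iff.1 ((isIntegral_algebraMap_iff (algebraMap ℚ ℂ).injective).1 h)

theorem pw_pow {u u' : ℂ} (hu : IsIntegral ℤ u) (hu' : IsIntegral ℤ u') {Q g n : ℕ} (hn : n ≠ 0)
    (h : (u * u') ^ n = ((Q : ℂ) ^ n) ^ g) (hp : PwC Q u) : ∃ j ≤ g, u = (Q : ℂ) ^ j := by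
  obtain ⟨l, E, μ, hl, rfl, hμ, rfl⟩ := hp
  rcases Nat.eq_zero_or_pos E with rfl | hE
  · exact ⟨0, Nat.zero_le _, by simp⟩
  obtain ⟨m, rfl⟩ := int_of_rat (hu.of_pow hE)
  obtain ⟨m, rfl⟩ := Int.eq_ofNat_of_zero_le (a := m) (by exact_mod_cast hμ.le)
  have hm : (m : ℂ) ≠ 0 := by exact_mod_cast hμ.ne'
  have h1 : u' ^ n = (((l ^ g) ^ (E * n) / m ^ (E * n) : ℚ) : ℂ) := by
    push_cast at h ⊢
    rw [eq_div_iff (pow_ne_zero _ hm), mul_comm, pow_mul, ← mul_pow, h]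
    ring
  obtain ⟨t, ht⟩ := int_of_rat (h1 ▸ hu'.pow n)
  have h2 : (m : ℤ) ^ (E * n) ∣ ((l : ℤ) ^ g) ^ (E * n) := ⟨t, by
    have hm' : (m : ℚ) ≠ 0 := by exact_mod_cast hμ.ne'
    rw [eq_div_iff (pow_ne_zero _ hm')] at ht
    exact_mod_cast (mul_comm _ _).trans ht |>.symm⟩
  have h3 : m ∣ l ^ g := by
    have := (Int.pow_dvd_pow_iff (mul_ne_zero hE.ne' hn)).1 h2
    exact_mod_cast this
  obtain ⟨j, hj, rfl⟩ := (Nat.dvd_prime_pow hl).1 h3
  exact ⟨j, hj, by push_cast; ring⟩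

theorem geo_zero {α : Type} (A : Finset α) (c t : α → ℂ) (p : Polynomial ℂ)
    (hp : ∀ a ∈ A, p.eval (t a) ≠ 0)
    (h : ∀ b : ℕ, (p.sum fun n z => z * ∑ a ∈ A, t a ^ (n + b) * c a) = 0) : ∑ a ∈ A, c a = 0 := by
  classical
  have h1 : ∀ b : ℕ, ∑ a ∈ A, t a ^ b * (p.eval (t a) * c a) = 0 := fun b => by
    rw [← h b]
    simp only [Polynomial.eval_eq_sum, Polynomial.sum, Finset.mul_sum, Finset.sum_mul]
    rw [Finset.sum_comm]
    exact Finset.sum_congr rfl fun _ _ => Finset.sum_congr rfl fun _ _ => by ring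
  have h2 : ∀ u : Polynomial ℂ, ∑ a ∈ A, u.eval (t a) * (p.eval (t a) * c a) = 0 := fun u => by
    induction u using Polynomial.induction_on' with
    | add u v hu hv => simp only [Polynomial.eval_add, add_mul, Finset.sum_add_distrib, hu, hv,
        add_zero]
    | monomial n z => simp only [Polynomial.eval_monomial, mul_assoc, ← Finset.mul_sum, h1,
        mul_zero]
  rw [← h2 (Lagrange.interpolate (A.image t) id fun z => (p.eval z)⁻¹)]
  refine Finset.sum_congr rfl fun a ha => ?_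
  have := Lagrange.eval_interpolate_at_node (s := A.image t) (v := id)
    (fun z => (p.eval z)⁻¹) (Set.injOn_id _) (Finset.mem_image_of_mem t ha)
  rw [id] at this
  rw [this, inv_mul_cancel_left₀ (hp a ha)]

section
variable {Λ : Type} [CommRing Λ] {g q : ℕ} {π : Λ} {N : Λ → ℂ} (C : Calc Λ g q π N)
include C

theorem deg_frob : ∃ n : ℕ, n ≠ 0 ∧ N (π ^ n) = ((q : ℂ) ^ n) ^ g := by
  obtain ⟨n, hn, h⟩ := C.frob g C.one (by rw [C.F_top]; trivial)
  refine ⟨n, hn, mul_right_cancel₀ C.del ?_⟩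
  have h1 := congrArg C.chi (C.lp_F_zero (fun _ => 1) h)
  rw [map_sub, map_sub, map_smul, map_smul, C.lp_push, C.chi_push, Calc.vec_sc1, one_mul, C.deg,
    map_zero, sub_eq_zero] at h1
  exact h1

end

section
variable {Λ Γ : Type} [CommRing Λ] [Fintype Γ] [DecidableEq Γ] (b : Module.Basis Γ ℤ Λ)
  {ρ : Γ → Λ →+* ℂ} (hρ : Function.Injective ρ) {g q : ℕ} {π : Λ}
  (C : Calc Λ g q π fun a => ∏ r, ρ r a)
include b hρ

theorem exch_box {y w : C.G Unit} {X : Finset Γ → C.G (Unit ⊕ Unit)}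
    (hX : ∀ c a, (C.l (Calc.rw2 a c) ^ g) (C.box C.one C.one) = ∑ S, mon ρ S c a • X S)
    {p : Finset Γ → ℂ}
    (hp : ∀ a c, C.B a c y w = ∑ T, (∏ r ∈ T, ρ r a) * (∏ r ∈ Tᶜ, ρ r c) * p T)
    (φ : Module.Dual ℂ (C.G (Unit ⊕ Unit))) (hφ : ∀ x z, φ (C.box x z) = 0)
    (S : Finset Γ) : φ (X S) * p S = 0 := by
  have := Module.Free.of_basis b
  have := Module.Finite.of_basis b
  let s : (Unit ⊕ Unit) ⊕ (Unit ⊕ Unit) → Fin 4 :=
    Sum.elim (Sum.elim (fun _ => 3) fun _ => 2) (Sum.elim (fun _ => 1) fun _ => 0)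
  let A : (Fin 4 → Λ) →+ ((Unit ⊕ Unit) ⊕ (Unit ⊕ Unit) → Λ) :=
    AddMonoidHom.mk' (fun u => -(u ∘ s)) fun u v => by ext; simp [add_comm]
  have hA : ∀ (c : Λ) u, A (fun j => c * u j) = fun i => c * A u i := fun c u => by
    ext i
    simp [A]
  let T := φ ∘ₗ C.push (rm Λ (Sum.inr : Unit ⊕ Unit → (Unit ⊕ Unit) ⊕ (Unit ⊕ Unit)))
  have h2 : Two ρ fun u v =>
      T ((C.l (A u) ^ g) ((C.l (A v) ^ g) (C.box (C.box y w) (C.box C.one C.one)))) :=
    ⟨C.pol_pow (A.comp (AddMonoidHom.fst (Fin 4 → Λ) (Fin 4 → Λ)))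
      (C.pol_pow (A.comp (AddMonoidHom.snd (Fin 4 → Λ) (Fin 4 → Λ)))
        (f := fun _ => C.box (C.box y w) (C.box C.one C.one)) (fun _ => IsPol.const _) g) g T,
      fun c u v _ => by rw [hA, C.mul, map_smul, nm, smul_eq_mul],
      fun c u v _ => by rw [hA, C.mul, map_smul, map_smul, nm, smul_eq_mul],
      fun u v => by rw [map_add, C.elem]⟩
  have := two_neg b hρ h2 (fun S => φ (X S)) p 0 0 (fun c a c' a' _ _ _ _ => ?_)
    (fun c a c' a' _ _ _ _ => ?_) S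
  · simpa using this
  · have e1 : A ![c, -a, 0, 0] = Sum.elim (0 : Unit ⊕ Unit → Λ) (Calc.rw2 a c) := by
      ext ((i | i) | (i | i)) <;> simp [A, s]
    have e2 : A ![0, 0, c', -a'] = Sum.elim (Calc.rw2 a' c') 0 := by
      ext ((i | i) | (i | i)) <;> simp [A, s]
    rw [e1, e2, C.lp_box_left, C.lp_box_right]
    simp only [T, LinearMap.comp_apply]
    rw [C.push_snd, ← Calc.B, hX, hp]
    simp only [map_smul, map_sum, smul_eq_mul]
    rw [mul_comm]
    congr 1 <;> exact Finset.sum_congr rfl fun S _ => by simp only [mon]; ring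
  · have e1 : A ![c, 0, 0, -a] ᵥ* rm Λ Calc.ex =
        Sum.elim (0 : Unit ⊕ Unit → Λ) (Calc.rw2 a c) := by
      rw [vecMul_rm]
      ext ((i | i) | (i | i)) <;> simp [A, s, Calc.ex, Equiv.swap_apply_def]
    have e2 : A ![0, -a', c', 0] ᵥ* rm Λ Calc.ex = Sum.elim (Calc.rw2 a' c') 0 := by
      rw [vecMul_rm]
      ext ((i | i) | (i | i)) <;> simp [A, s, Calc.ex, Equiv.swap_apply_def]
    have e3 : (Calc.ex ∘ Sum.inr : Unit ⊕ Unit → _) = Sum.map Sum.inl Sum.inr := by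
      funext i
      rcases i with _ | _ <;> rfl
    rw [C.exch, C.lp_push, C.lp_push, e1, e2, C.lp_box_left, C.lp_box_right]
    simp only [T, LinearMap.comp_apply, C.push_rm, e3]
    rw [← rm_blocks, C.push_box, hφ]
    simp

theorem calc_box
    (alg : ∀ (S : Finset Γ) (e j : ℕ), e ≠ 0 → j ≤ g →
      (∏ r ∈ S, ρ r π) ^ e = ((q : ℂ) ^ e) ^ j →
      ∃ (y w : C.G Unit) (p : Finset Γ → ℂ), p S ≠ 0 ∧
        ∀ a c, C.B a c y w = ∑ T, (∏ r ∈ T, ρ r a) * (∏ r ∈ Tᶜ, ρ r c) * p T) :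
    ∃ X : Finset Γ → C.G (Unit ⊕ Unit),
      (∀ S, X S ∈ Submodule.span ℂ (Set.range fun t : C.G Unit × C.G Unit => C.box t.1 t.2)) ∧
      ∀ e : ℕ, e ≠ 0 → ∀ φ : Module.Dual ℂ (C.G (Unit ⊕ Unit)), (∀ S, φ (X S) = 0) →
        ∀ p : Polynomial ℂ, (∀ z, p.eval z = 0 → PwC (q ^ e) z) →
          (∀ n : ℕ, (p.sum fun a z => z * φ (C.push (col (π ^ (e * (a + n)))) C.one)) = 0) →
            φ (C.push (col 1) C.one) = 0 := by
  classical
  obtain ⟨X, hX⟩ := row_vec b hρ C LinearMap.id (C.box C.one C.one)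
  have h1 : ∀ a, C.dl • C.push (col a) C.one = ∑ S, (∏ r ∈ S, ρ r a) • X S := fun a => by
    have := hX 1 a
    rw [LinearMap.id_apply, Calc.rw2, C.diag] at this
    simpa [mon, col] using this
  let Al : Finset Γ → Prop := fun S =>
    ∃ e j : ℕ, e ≠ 0 ∧ j ≤ g ∧ (∏ r ∈ S, ρ r π) ^ e = ((q : ℂ) ^ e) ^ j
  refine ⟨fun S => if Al S then X S else 0, fun S => ?_, fun e he φ hφ p hp h => ?_⟩
  · dsimp only
    split_ifs with hS
    · obtain ⟨e, j, he, hj, h⟩ := hS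
      obtain ⟨y, w, p, hS, hp⟩ := alg S e j he hj h
      refine (Subspace.forall_mem_dualAnnihilator_apply_eq_zero_iff _ _).1 fun φ hφ => ?_
      refine (mul_eq_zero.1 (exch_box b hρ C hX hp φ (fun x z => ?_) S)).resolve_right hS
      exact (Submodule.mem_dualAnnihilator φ).1 hφ _ (Submodule.subset_span ⟨(x, z), rfl⟩)
    · exact zero_mem _
  · have h2 : ∀ a, φ (C.push (col a) C.one) =
        ∑ S with ¬Al S, (∏ r ∈ S, ρ r a) * (C.dl⁻¹ * φ (X S)) := fun a => by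
      have h3 := congrArg φ (h1 a)
      rw [map_smul, smul_eq_mul, ← eq_inv_mul_iff_mul_eq₀ C.dl_ne] at h3
      rw [h3, map_sum, Finset.mul_sum, Finset.sum_filter]
      refine Finset.sum_congr rfl fun S _ => ?_
      have h4 : φ (if Al S then X S else 0) = 0 := hφ S
      split_ifs at h4 ⊢ with hS
      · simp [h4]
      · rw [map_smul, smul_eq_mul, mul_left_comm]
    rw [h2]
    simp only [map_one, Finset.prod_const_one, one_mul]
    refine geo_zero _ _ (fun S => (∏ r ∈ S, ρ r π) ^ e) p (fun S hS h0 => ?_) fun n => ?_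
    · have := Module.Finite.of_basis b
      have hi : ∀ S : Finset Γ, IsIntegral ℤ ((∏ r ∈ S, ρ r π) ^ e) := fun S =>
        (IsIntegral.prod _ fun r _ =>
          (Algebra.IsIntegral.isIntegral (R := ℤ) π).map (ρ r).toIntAlgHom).pow e
      obtain ⟨n, hn, h5⟩ := deg_frob C
      obtain ⟨j, hj, h6⟩ := pw_pow (hi S) (hi Sᶜ) (g := g) hn (by
        rw [← mul_pow, Finset.prod_mul_prod_compl, ← pow_mul, mul_comm, pow_mul]
        simp only [map_pow, Finset.prod_pow] at h5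
        rw [h5]
        push_cast
        ring) (hp _ h0)
      exact (Finset.mem_filter.1 hS).2 ⟨e, j, he, hj, by rw [h6, Nat.cast_pow]⟩
    · rw [← h n]
      simp only [h2, map_pow, Finset.prod_pow, pow_mul]

end

end Pool.Agent.Pav
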