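import Pool.Agent.P.MP_dd457d_ag.Bav.KPkg
import Pool.Agent.P.MP_2ce3e7_ag.Pav.CalcB

/-! The class of the graph of a power map. -/

set_option autoImplicit false

noncomputable section

namespace Pool.Agent.Pav

open MvPolynomial Function Pool.Agent.Bav

variable {σ k ι B : Type} [Field k] [Fintype σ] {I : Ideal (MvPolynomial σ k)}

theorem aeval_scale [Fintype ι] {R : Type} [CommRing R] [Algebra k R] {g : S σ k ι} {d : ι → ℤ}
    (h : Hg g d) (c : ι → R) (y : ι × σ → R) :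
    aeval (fun v => c v.1 * y v) g = (∏ i, c i ^ (d i).toNat) * aeval y g := by
  rw [g.as_sum, map_sum, map_sum, Finset.mul_sum]
  refine Finset.sum_congr rfl fun s hs => ?_
  rw [aeval_monomial, aeval_monomial, Finsupp.prod_fintype _ _ fun _ => pow_zero _,
    Finsupp.prod_fintype _ _ fun _ => pow_zero _, mul_left_comm]
  simp only [mul_pow, Finset.prod_mul_distrib, Fintype.prod_prod_type, Finset.prod_pow_eq_pow_sum,
    ← h.deg hs, Int.toNat_natCast]

variable (σ k) in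
/-- the equations of the graph of the `m`-th power map -/
def gS (m : ℕ) : Ideal (S σ k (Unit ⊕ Unit)) :=
  Ideal.span (Set.range fun p : σ × σ => X (.inl (), p.1) ^ m * X (.inr (), p.2) -
    X (.inl (), p.2) ^ m * X (.inr (), p.1))

omit [Fintype σ] in
theorem hg_gS (m : ℕ) (i j : σ) : Hg (X (.inl (), i) ^ m * X (.inr (), j) : S σ k (Unit ⊕ Unit))
    (m • wt ((.inl () : Unit ⊕ Unit), ()) + wt ((.inr () : Unit ⊕ Unit), ())) :=
  ((hg_X _).pow m).mul (hg_X _)

omit [Fintype σ] in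
theorem grI_gS (m : ℕ) : GrI (gS σ k m) := grW_span (by
  rintro _ ⟨p, rfl⟩
  exact ⟨_, (weightedHomogeneousSubmodule k wt _).sub_mem (hg_gS m p.1 p.2) (hg_gS m p.2 p.1)⟩)

theorem cT_graph [IsAlgClosed k] (Γ : Geo I B) {f : B → B} {m : ℕ}
    (hf : ∀ x, Tav.Par (Γ.p (f x)) (Γ.p x ^ m)) :
    Γ.cT {t | t (.inr ()) = f (t (.inl ()))} 0 =
      cy I (IX I (Unit ⊕ Unit) ⊔ gS σ k m) 0 := by
  refine (cy_eq_of_sat ((grI_IX Γ.hom).sup (grI_gS m)) (Γ.grI_VI _) le_sup_left
    (sup_le (Γ.IX_le_VI _) ?_) (fun g d hg hm α => ?_) 0).symm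
  · rw [Γ.le_VI (grI_gS m), gS, Γ.ZS_span]
    rintro t ht _ ⟨p, rfl⟩
    obtain ⟨c, -, hc⟩ := hf (t (.inl ()))
    simp only [map_sub, map_mul, map_pow, Γ.ev_X]
    rw [show t (.inr ()) = _ from ht, hc]
    simp only [Pi.smul_apply, Pi.pow_apply, smul_eq_mul]
    ring
  · let P : (Unit ⊕ Unit) × σ → S σ k (Unit ⊕ Unit) := fun v =>
      X (.inl (), v.2) ^ Sum.elim (fun _ => 1) (fun _ => m) v.1
    have h1 : aeval P g ∈ IX I (Unit ⊕ Unit) := by
      have hP : ∀ v, Hg (P v) (Sum.elim (fun _ => 1) (fun _ => m) v.1 •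
          wt ((.inl () : Unit ⊕ Unit), ())) := fun v =>
        (hg_X ((.inl () : Unit ⊕ Unit), v.2)).pow (Sum.elim (fun _ => 1) (fun _ => m) v.1)
      rw [← Γ.VI_univ, Γ.mem_VI (Geo.hg_subst (e := fun j =>
        Sum.elim (fun _ => 1) (fun _ => m) j • wt ((.inl () : Unit ⊕ Unit), ())) hP hg)]
      intro t _
      obtain ⟨c, hc0, hc⟩ := hf (t (.inl ()))
      rw [Γ.ev_subst (y := Sum.elim (fun _ => t (.inl ())) fun _ => f (t (.inl ())))
        (l := Sum.elim (fun _ => 1) fun _ => c⁻¹) ?_ hg, Γ.ev_of_VI hm rfl, mul_zero]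
      rintro ⟨_ | _, j⟩
      · simp [P, Γ.ev_X]
      · simp [P, Γ.ev_X, hc, hc0.ne_zero]
    let J := IX I (Unit ⊕ Unit) ⊔ gS σ k m
    let μ := Ideal.Quotient.mkₐ k J
    let i := α (.inl ())
    have h2 := aeval_scale hg (Sum.elim (fun _ => 1) fun _ => μ (X (.inl (), i)) ^ m)
      fun v => μ (X v)
    have h3 := aeval_scale hg (Sum.elim (fun _ => 1) fun _ => μ (X (.inr (), i))) fun v => μ (P v)
    have h4 : aeval (fun v => μ (P v)) g = 0 := by
      rw [← comp_aeval, AlgHom.comp_apply]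
      exact Ideal.Quotient.eq_zero_iff_mem.2 (Ideal.mem_sup_left h1)
    have h5 : aeval (fun v => μ (X v)) g = μ g := by rw [← comp_aeval, aeval_X_left]; rfl
    rw [h4, mul_zero] at h3
    rw [h5, show (fun v : (Unit ⊕ Unit) × σ =>
      Sum.elim (fun _ => 1) (fun _ => μ (X (.inl (), i)) ^ m) v.1 * μ (X v)) = _ from
        funext ?_, h3] at h2
    · refine ⟨m * (d (.inr ())).toNat, Ideal.Quotient.eq_zero_iff_mem.1 ?_⟩
      change μ _ = 0
      simp only [Fintype.prod_sum_type, Sum.elim_inl, Sum.elim_inr, one_pow, Finset.prod_const,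
        Finset.univ_unique, Finset.prod_singleton, one_mul, ← pow_mul] at h2
      simp only [mono, Fintype.prod_sum_type, Finset.univ_unique, Finset.prod_singleton, map_mul,
        map_pow, mul_pow]
      rw [mul_right_comm, ← h2, zero_mul]
    · rintro ⟨_ | _, j⟩
      · simp [P]
      · have := Ideal.Quotient.eq.2 (Ideal.mem_sup_right (S := IX I (Unit ⊕ Unit))
          (Ideal.subset_span (s := Set.range _) ⟨(i, j), rfl⟩ : _ ∈ gS σ k m))
        rw [map_mul, map_mul, map_pow, map_pow, mul_comm] at this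
        exact (mul_comm _ _).trans (this.trans ((mul_comm _ _).trans
          (congrArg (_ * ·) (map_pow μ _ _).symm)))

omit [Fintype σ] in
theorem push_graph {Ω A τ Λ : Type} [Field Ω] [IsAlgClosed Ω] [AddCommGroup A] [Fintype τ]
    [CommRing Λ] {g q : ℕ} {π : Λ} (P : PMod Ω A τ σ Λ g q π) (n : ℕ) :
    P.push (col (π ^ n)) P.one =
      cy (Tav.idl P.p) (IX (Tav.idl P.p) (Unit ⊕ Unit) ⊔ gS τ Ω (q ^ n)) 0 := by
  have h := (P.regM_mat (sc1 (π ^ n))).sec
  rw [P.push_eq (f := fun t => Sum.elim t (P.mat (sc1 (π ^ n)) t)) fun t => by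
    rw [col, P.mat_fromRows, P.mat_one]; rfl, h.pushM_eq, PMod.one, h.grs_cT,
    ← cT_graph P.geo (f := P.act (π ^ n)) fun x => by rw [P.act_pow]; exact par_iter P.frob n x]
  congr 1
  · ext t
    refine ⟨?_, fun ht => ⟨t ∘ Sum.inl, trivial, funext ?_⟩⟩
    · rintro ⟨u, -, rfl⟩
      exact congrFun (P.mat_sc1 _ u) ()
    · rintro (_ | _)
      · rfl
      · exact (congrFun (P.mat_sc1 _ _) ()).trans ht.symm
  · rw [Geo.extend_inl, Sum.elim_zero_zero]

end Pool.Agent.Pav
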