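import Pool.Agent.P.MP_2ce3e7_ag.Pav.BackA
import Pool.Agent.K.MP_e12fcd_ag.C334

/-! Additive functions of bigraded modules as linear forms on the Grothendieck group. -/

set_option autoImplicit false

noncomputable section

namespace Pool.Agent.Pav

open MvPolynomial TensorProduct Pool.Agent.Bav

/-- the equations of the graph of the power map -/
def gSb (k σ : Type) [Field k] (m : ℕ) : Ideal (S σ k (Unit ⊕ Unit)) :=
  Ideal.span (Set.range fun p : σ × σ =>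
    X (Sum.inl (), p.1) ^ m * X (Sum.inr (), p.2) - X (Sum.inl (), p.2) ^ m * X (Sum.inr (), p.1))

variable {σ k A : Type} [Field k] [CommRing A] [Algebra k A]

theorem grI_gSb (m : ℕ) : GrI (gSb k σ m) := by
  refine grW_span ?_
  rintro _ ⟨p, rfl⟩
  exact ⟨_, (weightedHomogeneousSubmodule k _ _).sub_mem
    (((hg_X (Sum.inl (), p.1)).pow m).mul (hg_X (Sum.inr (), p.2)))
    (((hg_X (Sum.inl (), p.2)).pow m).mul (hg_X (Sum.inr (), p.1)))⟩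

theorem cy_congr {Γ : Type} [AddCommGroup Γ] {𝒜 : Γ → Set A} [CXD.Gd 𝒜] {l : CXD.GM 𝒜 → ℚ}
    (ha : CXD.GAdd l) {U V : CXD.GM 𝒜} {e : U.M} {e' : V.M} {J : Ideal A} (hU : CXD.Cy U e J)
    (hV : CXD.Cy V e' J) : l U = l V := by
  obtain ⟨f, hf, h⟩ := hU.lift hV.hom fun a ha => (hV.ann a).2 ha
  refine ha.congr hV.finite (f := f) (fun d x => ?_)
    ⟨(injective_iff_map_eq_zero f).2 fun y hy => ?_, fun y => ?_⟩
  · have h1 : f (U.π (-0 + d) x) = V.π d (f x) := hf d x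
    rwa [neg_zero, zero_add] at h1
  · obtain ⟨a, rfl⟩ := hU.exists_smul y
    exact (hU.ann a).2 ((hV.ann a).1 (h a ▸ hy))
  · obtain ⟨a, rfl⟩ := hV.exists_smul y
    exact ⟨_, h a⟩

variable {I : Ideal (MvPolynomial σ k)} {𝒜 : ℤ → Set A} (E : Pre I 𝒜)

theorem Pre.back2_cyc {J : Ideal (S σ k (Unit ⊕ Unit))} {M : GM I (Unit ⊕ Unit)} {x : M.M}
    (h : IsCyc J 0 M x) : CXD.Cy (E.back2 M) (E.be M x) (J.map E.th) := by
  refine ⟨?_, eq_top_iff.2 fun y _ => ?_, fun a => ?_⟩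
  · have e : dg 0 = -0 := by
      funext i
      rcases i with i | i <;> simp [dg]
    rw [← E.be_π, e, h.deg]
  · obtain ⟨y, rfl⟩ := (E.be M).surjective y
    obtain ⟨f, rfl⟩ := h.gen y
    rw [E.be_smul]
    exact Submodule.smul_mem _ _ (Submodule.mem_span_singleton_self _)
  · obtain ⟨F, rfl⟩ := E.th_surj a
    rw [← E.be_smul, E.th_mem h.IX_le, ← h.ann, EmbeddingLike.map_eq_zero_iff]

theorem Pre.map_gSb (m : ℕ) :
    (IX I (Unit ⊕ Unit) ⊔ gSb k σ m).map E.th = CXD.gI k (fun a => E.q (X a)) m := by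
  have h0 : (IX I (Unit ⊕ Unit)).map E.th = ⊥ :=
    eq_bot_iff.2 (Ideal.map_le_iff_le_comap.2 fun F hF => E.th_eq_zero.2 hF)
  rw [Ideal.map_sup, h0, bot_sup_eq, gSb, Ideal.map_span, ← Set.range_comp, CXD.gI]
  refine congrArg Ideal.span (congrArg Set.range (funext fun p => ?_))
  simp [E.th_X_inl, E.th_X_inr]

theorem Pre.exists_phi_cy [Fintype σ] [CXD.Gd 𝒜] (hI : HomI I)
    {l : CXD.GM (CXD.tg k 𝒜 𝒜) → ℚ} (ha : CXD.GAdd l)
    (hv : CXD.VnG ⊥ (Set.range (CXD.zz k fun a => E.q (X a))) l) :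
    ∃ φ : Module.Dual ℂ (G I (Unit ⊕ Unit)), (∀ M, φ (cls M) = l (E.back2 M)) ∧
      ∀ (m : ℕ) (Y : CXD.GM (CXD.tg k 𝒜 𝒜)) (e : Y.M),
        CXD.Cy Y e (CXD.gI k (fun a => E.q (X a)) m) →
          φ (cy I (IX I (Unit ⊕ Unit) ⊔ gSb k σ m) 0) = l Y := by
  obtain ⟨φ, hφ⟩ := E.exists_phi ha hv
  refine ⟨φ, hφ, fun m Y e hY => ?_⟩
  obtain ⟨M, x, hx, e'⟩ := exists_cy (I := I) ((grI_IX hI).sup (grI_gSb m)) le_sup_left 0
  rw [e', hφ, cy_congr ha (E.map_gSb m ▸ E.back2_cyc hx) hY]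

/-- additive functions of bigraded modules as linear forms -/
theorem bridge [Fintype σ] (hI : HomI I) (l : CXD.GM (CXD.tg k (CXD.hom I) (CXD.hom I)) → ℚ)
    (ha : CXD.GAdd l) (hv : CXD.VnG ⊥ (Set.range (CXD.zz k (CXD.crd I))) l) :
    ∃ φ : Module.Dual ℂ (G I (Unit ⊕ Unit)),
      (∀ M N : GM I Unit, φ (boxG (cls M) (cls N)) = l (CXD.gbox k (backG M) (backG N))) ∧
      ∀ (m : ℕ) (Y : CXD.GM (CXD.tg k (CXD.hom I) (CXD.hom I))) (e : Y.M),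
        CXD.Cy Y e (CXD.gI k (CXD.crd I) m) →
          φ (cy I (IX I (Unit ⊕ Unit) ⊔ gSb k σ m) 0) = l Y := by
  obtain ⟨φ, hφ, h1⟩ := (pre I).exists_phi_cy hI ha hv
  refine ⟨φ, fun M N => ?_, h1⟩
  obtain ⟨P, j, hP⟩ := exists_isBox M N
  obtain ⟨f, hf, hb⟩ := Pre.back2_box hP (isB_back M) (isB_back N)
  rw [hP.boxG_cls, hφ, ha.congr ((pre I).back2_finite P) hf hb]

end Pool.Agent.Pav
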