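import Pool.Agent.P.MP_dd457d_ag.Bav.LinkA
import Pool.Agent.P.MP_dd457d_ag.Bav.Box
import Pool.Agent.K.MP_e12fcd_ag.C117

/-! Modules with two blocks as graded modules over the tensor square of the coordinate ring. -/

set_option autoImplicit false

noncomputable section

namespace Pool.Agent.Pav

open MvPolynomial TensorProduct Pool.Agent.Bav

variable {σ k A : Type} [Field k] [CommRing A] [Algebra k A]

/-- a presentation of a graded ring -/
structure Pre (I : Ideal (MvPolynomial σ k)) (𝒜 : ℤ → Set A) where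
  q : MvPolynomial σ k →ₐ[k] A
  u : A →ₐ[k] MvPolynomial σ k ⧸ I
  surj : Function.Surjective q
  uq : ∀ f, u (q f) = Ideal.Quotient.mk I f
  ker : ∀ f ∈ I, q f = 0
  hom : ∀ c, ∀ y ∈ 𝒜 c, ∃ (m : ℕ) (f : MvPolynomial σ k), (m : ℤ) = c ∧ f.IsHomogeneous m ∧ q f = y

/-- the presentation of the coordinate ring -/
def pre (I : Ideal (MvPolynomial σ k)) : Pre I (CXD.hom I) where
  q := Ideal.Quotient.mkₐ k I
  u := AlgHom.id k _
  surj := Ideal.Quotient.mk_surjective
  uq _ := rfl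
  ker _ := Ideal.Quotient.eq_zero_iff_mem.2
  hom _ _ h := h

/-- the inclusion of a factor -/
def qb (I : Ideal (MvPolynomial σ k)) {ι : Type} (i : ι) :
    (MvPolynomial σ k ⧸ I) →ₐ[k] S σ k ι ⧸ IX I ι :=
  Ideal.Quotient.liftₐ I ((Ideal.Quotient.mkₐ k _).comp (blk i)) fun _ hf =>
    Ideal.Quotient.eq_zero_iff_mem.2 (blk_mem i hf)

/-- the bidegree -/
def dg (γ : ℤ × ℤ) : Unit ⊕ Unit → ℤ := Sum.elim (fun _ => γ.1) fun _ => γ.2

theorem dg_surj (d : Unit ⊕ Unit → ℤ) : dg (d (Sum.inl ()), d (Sum.inr ())) = d := by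
  funext i
  rcases i with i | i <;> rfl

variable {I : Ideal (MvPolynomial σ k)} {𝒜 : ℤ → Set A} (E : Pre I 𝒜)

namespace Pre

/-- from the ring with two blocks to the tensor square -/
def th : S σ k (Unit ⊕ Unit) →ₐ[k] A ⊗[k] A :=
  aeval fun v : (Unit ⊕ Unit) × σ =>
    Sum.elim (fun _ => E.q (X v.2) ⊗ₜ[k] 1) (fun _ => 1 ⊗ₜ[k] E.q (X v.2)) v.1

theorem th_X_inl (a : σ) : E.th (X (Sum.inl (), a)) = E.q (X a) ⊗ₜ 1 := aeval_X _ _

theorem th_X_inr (a : σ) : E.th (X (Sum.inr (), a)) = 1 ⊗ₜ E.q (X a) := aeval_X _ _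

theorem th_inl (f : MvPolynomial σ k) : E.th (blk (Sum.inl ()) f) = E.q f ⊗ₜ 1 :=
  DFunLike.congr_fun (show E.th.comp (blk (Sum.inl ())) =
      Algebra.TensorProduct.includeLeft.comp E.q from
    MvPolynomial.algHom_ext fun a => by
      rw [AlgHom.comp_apply, blk_X, th_X_inl]
      rfl) f

theorem th_inr (f : MvPolynomial σ k) : E.th (blk (Sum.inr ()) f) = 1 ⊗ₜ E.q f :=
  DFunLike.congr_fun (show E.th.comp (blk (Sum.inr ())) =
      Algebra.TensorProduct.includeRight.comp E.q from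
    MvPolynomial.algHom_ext fun a => by
      rw [AlgHom.comp_apply, blk_X, th_X_inr]
      rfl) f

theorem th_mul (f g : MvPolynomial σ k) :
    E.th (blk (Sum.inl ()) f * blk (Sum.inr ()) g) = E.q f ⊗ₜ E.q g := by
  rw [map_mul, th_inl, th_inr, Algebra.TensorProduct.tmul_mul_tmul, mul_one, one_mul]

theorem th_surj : Function.Surjective E.th := fun a => by
  induction a using TensorProduct.induction_on with
  | zero => exact ⟨0, map_zero _⟩
  | tmul a b =>
    obtain ⟨f, rfl⟩ := E.surj a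
    obtain ⟨g, rfl⟩ := E.surj b
    exact ⟨_, E.th_mul f g⟩
  | add a b ha hb =>
    obtain ⟨f, rfl⟩ := ha
    obtain ⟨g, rfl⟩ := hb
    exact ⟨f + g, map_add _ _ _⟩

/-- from the tensor square to the quotient of the ring with two blocks -/
def ps : A ⊗[k] A →ₐ[k] S σ k (Unit ⊕ Unit) ⧸ IX I (Unit ⊕ Unit) :=
  Algebra.TensorProduct.productMap ((qb I (Sum.inl ())).comp E.u) ((qb I (Sum.inr ())).comp E.u)

theorem ps_th (F : S σ k (Unit ⊕ Unit)) : E.ps (E.th F) = Ideal.Quotient.mk _ F :=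
  DFunLike.congr_fun (show E.ps.comp E.th = Ideal.Quotient.mkₐ k _ from
    MvPolynomial.algHom_ext fun v => by
      obtain ⟨i | i, a⟩ := v
      · rw [AlgHom.comp_apply, th_X_inl, ps, Algebra.TensorProduct.productMap_apply_tmul, map_one,
          mul_one, ← blk_X, AlgHom.comp_apply, E.uq]
        rfl
      · rw [AlgHom.comp_apply, th_X_inr, ps, Algebra.TensorProduct.productMap_apply_tmul, map_one,
          one_mul, ← blk_X, AlgHom.comp_apply, E.uq]
        rfl) F

theorem th_eq_zero {F : S σ k (Unit ⊕ Unit)} : E.th F = 0 ↔ F ∈ IX I (Unit ⊕ Unit) := by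
  refine ⟨fun h => Ideal.Quotient.eq_zero_iff_mem.1 (by rw [← E.ps_th, h, map_zero]), fun h => ?_⟩
  refine IX_le (J := RingHom.ker E.th) ?_ h
  rintro (i | i) f hf
  · rw [RingHom.mem_ker, th_inl, E.ker f hf, zero_tmul]
  · rw [RingHom.mem_ker, th_inr, E.ker f hf, tmul_zero]

theorem th_mem {J : Ideal (S σ k (Unit ⊕ Unit))} (hJ : IX I (Unit ⊕ Unit) ≤ J)
    {F : S σ k (Unit ⊕ Unit)} : E.th F ∈ J.map E.th ↔ F ∈ J := by
  refine ⟨fun h => ?_, Ideal.mem_map_of_mem _⟩
  obtain ⟨G, hG, e⟩ := (Ideal.mem_map_iff_of_surjective _ E.th_surj).1 h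
  simpa using add_mem (hJ ((E.th_eq_zero (F := F - G)).1 (by rw [map_sub, e, sub_self]))) hG

/-- a module with the action of the tensor square -/
def B2 (_ : Pre I 𝒜) (T : GM I (Unit ⊕ Unit)) : Type := T.M

/-- the action of the quotient ring -/
def qAct {ι : Type} (T : GM I ι) : S σ k ι ⧸ IX I ι →+* Module.End (S σ k ι) T.M :=
  Ideal.Quotient.lift (IX I ι) (Algebra.lsmul (S σ k ι) (S σ k ι) T.M).toRingHom
    fun _ hf => LinearMap.ext fun x => GM.mem_ann.1 (T.IX_le_ann hf) x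

instance (T : GM I (Unit ⊕ Unit)) : AddCommGroup (E.B2 T) := T.acg
instance (T : GM I (Unit ⊕ Unit)) : Module (A ⊗[k] A) (E.B2 T) :=
  Module.compHom T.M ((qAct T).comp E.ps.toRingHom)

theorem b2_smul (T : GM I (Unit ⊕ Unit)) (F : S σ k (Unit ⊕ Unit)) (x : T.M) :
    qAct T (E.ps (E.th F)) x = F • x := by
  rw [ps_th]
  rfl

/-- a module with two blocks as a graded module over the tensor square -/
def back2 (T : GM I (Unit ⊕ Unit)) : CXD.GM (CXD.tg k 𝒜 𝒜) where
  M := E.B2 T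
  π γ := (T.π (dg γ)).toAddMonoidHom
  π_self _ := T.π_self _
  π_ne d e x h := T.π_ne _ _ x fun h' =>
    h (Prod.ext (congrFun h' (Sum.inl ())) (congrFun h' (Sum.inr ())))
  sum_π x := by
    classical
    obtain ⟨s, hs⟩ := T.sum_π x
    refine ⟨s.image fun d => (d (Sum.inl ()), d (Sum.inr ())), ?_⟩
    rw [Finset.sum_image fun a _ b _ h => by rw [← dg_surj a, ← dg_surj b, h]]
    simp only [dg_surj]
    exact hs
  π_smul := by
    rintro ⟨c, c'⟩ d _ ⟨a, ha, b, hb, rfl⟩ (x : T.M)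
    obtain ⟨m, f, rfl, hf, rfl⟩ := E.hom c a ha
    obtain ⟨n, g, rfl, hg, rfl⟩ := E.hom c' b hb
    have h := T.π_smul ((hg_sg (Sum.inl ()) hf).mul (hg_sg (Sum.inr ()) hg)) (dg d) x
    have e : dg d + (sg (Sum.inl ()) (m : ℤ) + sg (Sum.inr ()) (n : ℤ)) =
        dg (((m : ℤ), (n : ℤ)) + d) := by
      funext i
      rcases i with i | i <;> simp [dg, sg, add_comm]
    rw [e, ← E.b2_smul, ← E.b2_smul, th_mul] at h
    exact h

/-- the identity map -/
def be (T : GM I (Unit ⊕ Unit)) : T.M ≃+ (E.back2 T).M := AddEquiv.refl _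

theorem be_smul (T : GM I (Unit ⊕ Unit)) (F : S σ k (Unit ⊕ Unit)) (x : T.M) :
    E.be T (F • x) = E.th F • E.be T x := (E.b2_smul T F x).symm

theorem be_π (T : GM I (Unit ⊕ Unit)) (γ : ℤ × ℤ) (x : T.M) :
    E.be T (T.π (dg γ) x) = (E.back2 T).π γ (E.be T x) := rfl

theorem back2_finite (T : GM I (Unit ⊕ Unit)) : Module.Finite (A ⊗[k] A) (E.back2 T).M := by
  obtain ⟨s, hs, h⟩ := Submodule.fg_def.1 T.fg.fg_top
  have key : ∀ x ∈ Submodule.span (S σ k (Unit ⊕ Unit)) s,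
      E.be T x ∈ Submodule.span (A ⊗[k] A) (E.be T '' s) := by
    intro x hx
    induction hx using Submodule.span_induction with
    | mem x h => exact Submodule.subset_span ⟨x, h, rfl⟩
    | zero => exact zero_mem _
    | add x y _ _ a b => exact add_mem a b
    | smul a x _ h => exact E.be_smul T a x ▸ Submodule.smul_mem _ _ h
  exact ⟨Submodule.fg_def.2 ⟨_, hs.image _, eq_top_iff.2 fun x _ =>
    key x (h ▸ Submodule.mem_top)⟩⟩

/-- maps of modules over the tensor square -/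
def backH2 {M N : GM I (Unit ⊕ Unit)} (f : Hom M N) :
    (E.back2 M).M →ₗ[A ⊗[k] A] (E.back2 N).M where
  toFun := f.f
  map_add' := f.f.map_add
  map_smul' a x := by
    obtain ⟨F, rfl⟩ := E.th_surj a
    exact (congrArg f.f (E.be_smul M F x).symm).trans ((f.f.map_smul F x).trans (E.be_smul N F _))

theorem back2_ses {M N P : GM I (Unit ⊕ Unit)} {f : Hom M N} {g : Hom N P} (h : SES f g) :
    CXD.Ses (E.back2 M) (E.back2 N) (E.back2 P) :=
  ⟨E.backH2 f, E.backH2 g, fun _ x => f.π _ x, fun _ x => g.π _ x, h⟩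

theorem back2_nil [Finite σ] {M : GM I (Unit ⊕ Unit)} (h : Tors M) :
    CXD.Nil (Set.range fun p : σ × σ => E.q (X p.1) ⊗ₜ[k] E.q (X p.2)) (E.back2 M).M := by
  rintro _ ⟨p, rfl⟩ x
  obtain ⟨N, hN⟩ := (tors_iff_irr M).1 h (Sum.elim (fun _ => p.1) fun _ => p.2)
  refine ⟨N, ?_⟩
  have e : E.th (mono k (Sum.elim (fun _ => p.1) fun _ => p.2)) =
      E.q (X p.1) ⊗ₜ[k] E.q (X p.2) := by
    rw [mono, Fintype.prod_sum_type, Fintype.prod_unique, Fintype.prod_unique, ← blk_X, ← blk_X]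
    exact E.th_mul _ _
  have h1 := E.be_smul M (mono k (Sum.elim (fun _ => p.1) fun _ => p.2) ^ N) ((E.be M).symm x)
  rw [GM.mem_ann.1 hN, map_zero, map_pow, e] at h1
  exact h1.symm

/-- an additive function gives a linear form on the Grothendieck group -/
theorem exists_phi [Finite σ] {l : CXD.GM (CXD.tg k 𝒜 𝒜) → ℚ} (ha : CXD.GAdd l)
    (hv : CXD.VnG ⊥ (Set.range fun p : σ × σ => E.q (X p.1) ⊗ₜ[k] E.q (X p.2)) l) :
    ∃ φ : G I (Unit ⊕ Unit) →ₗ[ℂ] ℂ, ∀ M, φ (cls M) = l (E.back2 M) :=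
  exists_lift (fun M => (l (E.back2 M) : ℂ))
    (fun _ N _ _ _ h => by rw [ha _ _ _ (E.back2_finite N) (E.back2_ses h), Rat.cast_add])
    fun M h => by rw [hv _ (E.back2_finite M) CXD.kill_bot (E.back2_nil h), Rat.cast_zero]

/-- `V` is the module `M` over the coordinate ring -/
structure IsB (M : GM I Unit) (V : CXD.GM 𝒜) (e : M.M ≃+ V.M) : Prop where
  smul : ∀ f x, e ((blk () f : S σ k Unit) • x) = E.q f • e x
  π : ∀ c x, e (M.π (fun _ => c) x) = V.π c (e x)

variable {E}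

theorem IsB.smul_C {M : GM I Unit} {V : CXD.GM 𝒜} {e : M.M ≃+ V.M} (h : E.IsB M V e) (c : k)
    (x : M.M) : e (c • x) = algebraMap k A c • e x := by
  have h1 := h.smul (C c) x
  rwa [algHom_C, algHom_C, algebraMap_smul] at h1

/-- exterior products correspond -/
theorem back2_box [CXD.Gd 𝒜] [CXD.Gk k 𝒜] {M N : GM I Unit} {P : GM I (Unit ⊕ Unit)}
    {j : M.M ⊗[k] N.M ≃ₗ[k] P.M} (h : IsBox M N P j) {V W : CXD.GM 𝒜} {e : M.M ≃+ V.M}
    {e' : N.M ≃+ W.M} (hV : E.IsB M V e) (hW : E.IsB N W e') :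
    ∃ f : (CXD.gbox k V W).M →ₗ[A ⊗[k] A] (E.back2 P).M, CXD.IsG f ∧ Function.Bijective f := by
  let F : M.M →+ N.M →+ M.M ⊗[k] N.M :=
    LinearMap.toAddMonoidHom'.comp (TensorProduct.mk k M.M N.M).toAddMonoidHom
  obtain ⟨g, hg⟩ := CXD.gbox_lift (k := k) (N := V) (M := W)
    (F.compl₂ e'.symm.toAddMonoidHom |>.comp e.symm.toAddMonoidHom) fun c x y => by
      obtain ⟨x, rfl⟩ := e.surjective x
      obtain ⟨y, rfl⟩ := e'.surjective y
      rw [← hV.smul_C, ← hW.smul_C]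
      simp [F]
  have hg2 : ∀ x y, g (CXD.gb k V W (e x) (e' y)) = x ⊗ₜ y := fun x y => by simp [hg, F]
  let g' : M.M ⊗[k] N.M →+ (CXD.gbox k V W).M :=
    TensorProduct.liftAddHom ((CXD.gb k V W).compl₂ e'.toAddMonoidHom |>.comp e.toAddMonoidHom)
      fun c x y => by
        have h1 := CXD.smul_gb (k := k) (algebraMap k A c) 1 (e x) (e' y)
        have h2 := CXD.smul_gb (k := k) 1 (algebraMap k A c) (e x) (e' y)
        rw [← hV.smul_C, one_smul] at h1
        rw [← hW.smul_C, one_smul] at h2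
        refine h1.symm.trans (Eq.trans ?_ h2)
        rw [Algebra.TensorProduct.tmul_one_eq_one_tmul]
  have hg' : ∀ (x : M.M) (y : N.M), g' (x ⊗ₜ y) = CXD.gb k V W (e x) (e' y) := fun _ _ => rfl
  have ind : ∀ p : (CXD.gbox k V W).M → Prop, p 0 → (∀ x y, p (CXD.gb k V W (e x) (e' y))) →
      (∀ u v, p u → p v → p (u + v)) → ∀ u, p u := fun p h0 h1 h2 u =>
    CXD.gbox_ind h0 (fun _ x _ y _ _ => by simpa using h1 (e.symm x) (e'.symm y)) h2 u
  have hb : Function.Bijective g := by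
    refine Function.bijective_iff_has_inverse.2 ⟨g', ind _ (by simp) (fun x y => ?_)
      fun u v a b => ?_, fun t => ?_⟩
    · rw [hg2, hg']
    · rw [map_add, map_add, a, b]
    · induction t using TensorProduct.induction_on with
      | zero => simp
      | tmul x y => rw [hg', hg2]
      | add u v a b => rw [map_add, map_add, a, b]
  refine ⟨⟨⟨fun u => E.be P (j (g u)), fun u v => by rw [map_add, map_add, map_add]⟩,
    fun a => ind (fun u => E.be P (j (g (a • u))) = a • E.be P (j (g u))) (by simp)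
      (fun x y => ?_) fun u v a b => ?_⟩,
    fun γ => ind (fun u => E.be P (j (g ((CXD.gbox k V W).π γ u))) =
      (E.back2 P).π γ (E.be P (j (g u)))) (by simp) (fun x y => ?_) fun u v a b => ?_,
    (E.be P).bijective.comp (j.bijective.comp hb)⟩
  · induction a using TensorProduct.induction_on with
    | zero => simp
    | tmul a b =>
      obtain ⟨f, rfl⟩ := E.surj a
      obtain ⟨f', rfl⟩ := E.surj b
      rw [CXD.smul_gb, ← hV.smul, ← hW.smul, hg2, hg2, ← th_mul, ← be_smul, mul_smul,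
        ← rn_blk Sum.inl, ← rn_blk Sum.inr, box_smul_inr h, box_smul_inl h]
    | add a b ha hb => rw [add_smul, map_add, map_add, map_add, ha, hb, add_smul]
  · simp only [smul_add, map_add, a, b]
  · rw [CXD.gbox_π, ← hV.π, ← hW.π, hg2, hg2, ← be_π, box_π_tmul h]
    rfl
  · simp only [map_add, a, b]

end Pre

theorem isB_back (M : GM I Unit) : (pre I).IsB M (backG M) (sle M ()) :=
  ⟨fun _ _ => rfl, fun _ _ => rfl⟩

end Pool.Agent.Pav
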