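import Pool.Agent.P.MP_2ce3e7_ag.Pav.Graph

/-! The diagonal modulo finitely many exterior products of modules. -/

set_option autoImplicit false

noncomputable section

namespace Pool.Agent.Pav

open MvPolynomial Function Pool.Agent.Bav

theorem span_box {σ k : Type} [Field k] [Fintype σ] {I : Ideal (MvPolynomial σ k)}
    {x : G I (Unit ⊕ Unit)}
    (h : x ∈ Submodule.span ℂ (Set.range fun t : G I Unit × G I Unit => boxG t.1 t.2)) :
    ∃ T : Set (GM I Unit × GM I Unit), T.Finite ∧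
      x ∈ Submodule.span ℂ ((fun t => boxG (cls t.1) (cls t.2)) '' T) := by
  have h1 : x ∈ Submodule.span ℂ (Set.range fun t : GM I Unit × GM I Unit =>
      boxG (cls t.1) (cls t.2)) := by
    refine Submodule.span_le.2 ?_ h
    rintro _ ⟨⟨y, w⟩, rfl⟩
    rw [SetLike.mem_coe]
    induction y using G.ind with
    | h1 M =>
      induction w using G.ind with
      | h1 N => exact Submodule.subset_span ⟨(M, N), rfl⟩
      | h0 => simp
      | h2 a b ha hb => simpa only [map_add] using add_mem ha hb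
      | h3 c a ha => simpa only [map_smul] using Submodule.smul_mem _ c ha
    | h0 => simp
    | h2 a b ha hb => simpa only [map_add, LinearMap.add_apply] using add_mem ha hb
    | h3 c a ha => simpa only [map_smul, LinearMap.smul_apply] using Submodule.smul_mem _ c ha
  rw [← Set.image_univ, Submodule.mem_span_image_iff_exists_fun] at h1
  obtain ⟨t, -, c, rfl⟩ := h1
  exact ⟨t, t.finite_toSet, Submodule.sum_mem _ fun i _ =>
    Submodule.smul_mem _ _ (Submodule.subset_span ⟨i, i.2, rfl⟩)⟩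

theorem pmod_box (k : Type) [Field k] [Fintype k] {A τ σ Λ Γ : Type} [AddCommGroup A] [Fintype τ]
    [Fintype σ] [CommRing Λ] [Fintype Γ] [DecidableEq Γ] {g : ℕ} {π : Λ}
    (P : PMod (AlgebraicClosure k) A τ σ Λ g (Fintype.card k) π) {ρ : Γ → Λ →+* ℂ}
    (b : Module.Basis Γ ℤ Λ) (hρ : Injective ρ) (hN : P.Num ρ) :
    ∃ T : Set (GM (Tav.idl P.p) Unit × GM (Tav.idl P.p) Unit), T.Finite ∧ ∀ e : ℕ, e ≠ 0 →
      ∀ φ : Module.Dual ℂ (G (Tav.idl P.p) (Unit ⊕ Unit)),
        (∀ t ∈ T, φ (boxG (cls t.1) (cls t.2)) = 0) →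
        ∀ p : Polynomial ℂ, (∀ z, p.eval z = 0 → PwC (Fintype.card k ^ e) z) →
          (∀ n : ℕ, (p.sum fun a z => z * φ (cy (Tav.idl P.p)
            (IX (Tav.idl P.p) _ ⊔ gS τ _ ((Fintype.card k ^ e) ^ (a + n))) 0)) = 0) →
          φ (cy (Tav.idl P.p) (IX (Tav.idl P.p) _ ⊔ gS τ _ ((Fintype.card k ^ e) ^ 0)) 0) = 0 := by
  have e1 : chi ((P.l (1 : Unit → Λ) ^ g) P.one) = (g.factorial : ℂ) * P.num1 1 := P.k_num1 1
  have hg : (g.factorial : ℂ) ≠ 0 := Nat.cast_ne_zero.2 g.factorial_ne_zero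
  obtain ⟨X, h1, h2⟩ := calc_box b hρ (P.cal k (N := fun a => ∏ r, ρ r a)
    (by rw [e1]; exact mul_ne_zero hg (Rat.cast_ne_zero.2 hN.del))
    fun a => by rw [e1, P.k_num1, hN.deg, mul_left_comm]) fun S e j he hj h => by
      obtain ⟨Z, W, c, hc, hs⟩ := hN.alg S e j he hj h
      refine ⟨P.geo.cT {t | t () ∈ Z} 0, P.geo.cT {t | t () ∈ W} 0,
        fun T => (g.factorial : ℂ) * c T, mul_ne_zero hg hc, fun a b => ?_⟩
      have h3 := P.k_num2 Z W a b
      rw [hs, Finset.mul_sum, ← Sum.elim_zero_zero] at h3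
      exact (congrArg (fun z => chi ((P.l _ ^ g) z)) (P.geo.box_cT _ _ 0 0)).trans
        (h3.trans (Finset.sum_congr rfl fun T _ => by ring))
  choose T hT hX using fun S => span_box (h1 S)
  refine ⟨⋃ S, T S, Set.finite_iUnion hT, fun e he φ hφ p hp h => ?_⟩
  have h3 := h2 e he φ (fun S => ?_) p hp fun n => ?_
  · rw [pow_zero, ← pow_zero (Fintype.card k), ← push_graph, pow_zero]
    exact h3
  · refine Submodule.span_le (p := LinearMap.ker φ).2 ?_ (hX S)
    rintro _ ⟨t, ht, rfl⟩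
    exact hφ t (Set.mem_iUnion.2 ⟨S, ht⟩)
  · simp only [← pow_mul, ← push_graph] at h
    exact h n

end Pool.Agent.Pav
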