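import Pool.Agent.P.MP_2ce3e7_ag.Pav.Defs
import Pool.Agent.P.MP_dd457d_ag.Bav.Iface

/-! From the point data to the vanishing. -/

set_option autoImplicit false

noncomputable section

namespace Pool.Agent.Pav

open Function MvPolynomial Pool.Agent.Tav Pool.Agent.Bav

/-- the diagonal over the algebraic closure -/
def S_DBo : Prop :=
  ∀ (k : Type) [Field k] [Fintype k] {G τ σ Λ Γ : Type} [AddCommGroup G] [Fintype τ] [Fintype σ]
    [CommRing Λ] [Fintype Γ] [DecidableEq Γ] {g : ℕ} {π : Λ}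
    (P : PMod (AlgebraicClosure k) G τ σ Λ g (Fintype.card k) π) {ρ : Γ → Λ →+* ℂ}
    (_ : Module.Basis Γ ℤ Λ), Injective ρ → Fintype.card Γ = 2 * g → P.Num ρ →
    DBo (AlgebraicClosure k) (CXD.hom (idl P.p)) (CXD.crd (idl P.p)) (Fintype.card k)

theorem hom_map {k L τ : Type} [Field k] [Field L] (φ : k →+* L) {J : Ideal (MvPolynomial τ k)}
    (h : ∀ d, ∀ f ∈ J, homogeneousComponent d f ∈ J) :
    ∀ d, ∀ f ∈ J.map (map φ), homogeneousComponent d f ∈ J.map (map φ) := by
  have e : J.map (map φ) =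
      Ideal.span {y | ∃ d, ∃ f ∈ J, y = map φ (homogeneousComponent d f)} := by
    refine le_antisymm (Ideal.map_le_iff_le_comap.2 fun f hf => ?_) (Ideal.span_le.2 ?_)
    · rw [Ideal.mem_comap, ← sum_homogeneousComponent f, map_sum]
      exact Ideal.sum_mem _ fun d _ => Ideal.subset_span ⟨d, f, hf, rfl⟩
    · rintro _ ⟨d, f, hf, rfl⟩
      exact Ideal.mem_map_of_mem _ (h d f hf)
  let := MvPolynomial.gradedAlgebra (σ := τ) (R := L)
  have key := Ideal.homogeneous_span (homogeneousSubmodule τ L)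
    {y | ∃ d, ∃ f ∈ J, y = map φ (homogeneousComponent d f)} (by
      rintro _ ⟨d, f, -, rfl⟩
      exact ⟨d, (homogeneousComponent_isHomogeneous d f).map φ⟩)
  intro d f hf
  rw [e] at hf ⊢
  have := key d hf
  rwa [show ((DirectSum.decompose (homogeneousSubmodule τ L) f d : _) : MvPolynomial τ L) =
    homogeneousComponent d f from MvPolynomial.decomposition.decompose'_apply f d] at this

variable (hB : S_DBo) (hD : S_Down) (hE : S_Ev) (hR : S_Res) (hI : S_Idk)
include hB hD hE hR hI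

theorem par_of_pmod (k : Type) [Field k] [Fintype k] {G τ σ Λ Γ : Type} [AddCommGroup G]
    [Fintype τ] [Fintype σ] [CommRing Λ] [Fintype Γ] [DecidableEq Γ] {g : ℕ} {π : Λ}
    (P : PMod (AlgebraicClosure k) G τ σ Λ g (Fintype.card k) π) {ρ : Γ → Λ →+* ℂ}
    (b : Module.Basis Γ ℤ Λ) (hρ : Injective ρ) (hc : Fintype.card Γ = 2 * g) (hN : P.Num ρ)
    (s : ℕ) (hs : 0 < s) :
    CXD.Par k (CXD.Sph k s) (CXD.hom (idk k P.p)) (CXD.crd (idk k P.p)) := by
  obtain ⟨e1, e2⟩ := hI k P.p (P.act π) P.inj P.av.ne P.frob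
  obtain ⟨L, _, _, _, hL⟩ := hD k (AlgebraicClosure k) (idk k P.p)
    ((congrArg (fun I => DBo (AlgebraicClosure k) (CXD.hom I) (CXD.crd I) (Fintype.card k)) e1).mpr
      (hB k P b hρ hc hN))
  exact hR k L _ e2 s hs (hE L _ (hom_map _ e2) hL s hs)

end Pool.Agent.Pav
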