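import Pool.Agent.P.MP_2ce3e7_ag.Pav.Box
import Pool.Agent.P.MP_2ce3e7_ag.Pav.Back
import Pool.Agent.P.MP_2ce3e7_ag.Pav.Top

/-! The statement over the algebraic closure. -/

set_option autoImplicit false

noncomputable section

namespace Pool.Agent.Pav

open MvPolynomial Function Pool.Agent.Bav

theorem pwC_of {Q : ℕ} {p : Polynomial ℚ} (hp : p ∈ CXD.PwP Q) (z : ℂ)
    (h : (p.map (algebraMap ℚ ℂ)).eval z = 0) : PwC Q z := by
  induction hp using Submonoid.closure_induction with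
  | mem p hp =>
    obtain ⟨ν, ⟨l, E, μ, hl, hQ, hμ, rfl⟩, rfl⟩ := hp
    exact ⟨l, E, μ, hl, hQ, hμ, by simpa [sub_eq_zero] using h⟩
  | one => simp at h
  | mul p q _ _ ip iq =>
    rw [Polynomial.map_mul, Polynomial.eval_mul, mul_eq_zero] at h
    exact h.elim ip iq

theorem p_DBo : S_DBo := by
  intro k _ _ A τ σ Λ Γ _ _ _ _ _ _ g π P ρ b hρ _ hN
  obtain ⟨T, hT, h⟩ := pmod_box k P b hρ hN
  refine ⟨(fun t => (back t.1, back t.2)) '' T, hT.image _,
    fun e he l h1 h2 h3 Y y hY p hp h4 => ?_⟩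
  obtain ⟨φ, h5, h6⟩ := bridge P.geo.hom l h1 h2
  have h7 := h e he φ (fun t ht => (h5 _ _).trans (Rat.cast_eq_zero.2 (h3 _ ⟨t, ht, rfl⟩)))
    (p.map (algebraMap ℚ ℂ)) (pwC_of hp) fun n => by
      have h8 := congrArg (algebraMap ℚ ℂ) (h4 n)
      rw [Polynomial.sum, map_sum, map_zero] at h8
      rw [Polynomial.sum, Polynomial.support_map_of_injective _ (algebraMap ℚ ℂ).injective, ← h8]
      exact Finset.sum_congr rfl fun a _ => by
        rw [Polynomial.coeff_map, map_mul]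
        exact congrArg _ (h6 _ _ _ (hY _))
  exact Rat.cast_eq_zero.1 ((h6 _ _ _ (hY 0)).symm.trans h7)

end Pool.Agent.Pav
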