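import Pool.Agent.K.MP_e12fcd_ag.C333
import Pool.Agent.K.MP_e12fcd_ag.C334

/-! The diagonal modulo exterior products. -/

set_option autoImplicit false

open scoped TensorProduct

noncomputable section

namespace Pool.Agent.Pav

open Pool.Agent.CXD MvPolynomial

section
variable (k : Type) [Field k] {A σ : Type} [CommRing A] [Algebra k A] (𝒜 : ℤ → Set A) [Gd 𝒜]
  [Gk k 𝒜] (z : σ → A)

/-- a recurrence with positive roots for the values on the graphs of the power maps forces the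
value on the diagonal to vanish -/
def Rec (Q : ℕ) (l : GM (tg k 𝒜 𝒜) → ℚ) : Prop :=
  ∀ (Y : ℕ → GM (tg k 𝒜 𝒜)) (e : ∀ a, (Y a).M), (∀ a, Cy (Y a) (e a) (gI k z (Q ^ a))) →
    ∀ p ∈ PwP Q, (∀ n, (p.sum fun a c => c * l (Y (a + n))) = 0) → l (Y 0) = 0

/-- the statement over a finite field -/
def DB [Fintype k] : Prop :=
  ∀ l : GM (tg k 𝒜 𝒜) → ℚ, GAdd l → VnG ⊥ (Set.range (zz k z)) l → ExtG k 𝒜 𝒜 l →
    Rec k 𝒜 z (Fintype.card k) l

/-- the statement over the algebraic closure -/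
def DBo (q : ℕ) : Prop :=
  ∃ T : Set (FGM 𝒜 × FGM 𝒜), T.Finite ∧ ∀ e : ℕ, e ≠ 0 → ∀ l : GM (tg k 𝒜 𝒜) → ℚ, GAdd l →
    VnG ⊥ (Set.range (zz k z)) l → (∀ t ∈ T, l (gbox k t.1.1 t.2.1) = 0) → Rec k 𝒜 z (q ^ e) l

end

/-- descent to a finite field -/
def S_Down : Prop :=
  ∀ (k Ω : Type) [Field k] [Fintype k] [Field Ω] [Algebra k Ω] [Algebra.IsAlgebraic k Ω]
    {τ : Type} [Fintype τ] (J : Ideal (MvPolynomial τ k)),
    DBo Ω (hom (J.map (map (algebraMap k Ω)))) (crd (J.map (map (algebraMap k Ω))))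
      (Fintype.card k) →
    ∃ (L : Type) (_ : Field L) (_ : Fintype L) (_ : Algebra k L),
      DB L (hom (J.map (map (algebraMap k L)))) (crd (J.map (map (algebraMap k L))))

/-- from the diagonal to vector bundles -/
def S_Ev : Prop :=
  ∀ (k : Type) [Field k] [Fintype k] {τ : Type} [Fintype τ] (J : Ideal (MvPolynomial τ k)),
    (∀ d, ∀ f ∈ J, homogeneousComponent d f ∈ J) → DB k (hom J) (crd J) →
    ∀ s, 0 < s → Par k (Sph k s) (hom J) (crd J)

/-- restriction of scalars -/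
def S_Res : Prop :=
  ∀ (k L : Type) [Field k] [Fintype k] [Field L] [Fintype L] [Algebra k L] {τ : Type} [Fintype τ]
    (J : Ideal (MvPolynomial τ k)), (∀ d, ∀ f ∈ J, homogeneousComponent d f ∈ J) → ∀ s, 0 < s →
    Par L (Sph L s) (hom (J.map (map (algebraMap k L)))) (crd (J.map (map (algebraMap k L)))) →
    Par k (Sph k s) (hom J) (crd J)

end Pool.Agent.Pav
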