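import Pool.Agent.P.MP_dd457d_ag.Bav.DescB
import Pool.Agent.K.MP_e12fcd_ag.C95

/-! Forms of graded modules over finite subextensions, for any group of degrees. -/

open Function Filter TensorProduct Module
open Pool.Agent.CXD
open Pool.Agent.Bav.Desc (FD ev_mem Kl exists_proj exists_rel sp mem_sp sp_le sp_ext sp_map sp_smul
  ev_sp bc_spec ring_spec)

noncomputable section

namespace Pool.Agent.Pav.Dn

variable {k Ω : Type} [Field k] [Field Ω] [Algebra k Ω] {A B Γ : Type} [CommRing A] [CommRing B]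
  [AddCommGroup Γ] [Algebra Ω B] [Algebra A B] {𝒜 : Γ → Set A} {ℬ : Γ → Set B}

/-- restriction of scalars -/
def rs (h : ∀ c, ∀ a ∈ 𝒜 c, algebraMap A B a ∈ ℬ c) (N : GM ℬ) : GM 𝒜 where
  M := N.M
  mod := Module.compHom N.M (algebraMap A B)
  π := N.π
  π_self := N.π_self
  π_ne := N.π_ne
  sum_π := N.sum_π
  π_smul c d a ha x := N.π_smul c d _ (h c a ha) x

omit [Algebra Ω B] [Algebra A B] in
theorem π_zero (N : GM ℬ) {β : B} (h : β ∈ ℬ 0) (d : Γ) (y : N.M) :
    N.π d (β • y) = β • N.π d y := by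
  simpa using N.π_smul 0 d β h y

/-- `N'` is a form of `N` over `K`. -/
structure Form (K : IntermediateField k Ω) (N : GM ℬ) (N' : GM 𝒜) (j : N'.M →+ N.M) : Prop where
  inj : Injective j
  lin : ∀ (a : A) x, j (a • x) = algebraMap A B a • j x
  gr : ∀ d x, j (N'.π d x) = N.π d (j x)
  st : ∀ c ∈ K, ∀ x, ∃ y, j y = algebraMap Ω B c • j x
  top : ∀ y, y ∈ sp B (Set.univ : Set Ω) j
  ret : ∀ r : Ω →+ Ω, Kl K r → ∃ R : N.M →+ N.M,
    ∀ ω x, R (algebraMap Ω B ω • j x) = algebraMap Ω B (r ω) • j x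

variable {K K' L : IntermediateField k Ω} {M N P : GM ℬ} {M' N' P' : GM 𝒜} {i : M'.M →+ M.M}
  {j : N'.M →+ N.M} {l : P'.M →+ P.M}

theorem Form.up (H3 : ∀ ω, algebraMap Ω B ω ∈ ℬ 0) (h : Form K N N' j) (hL : K ≤ L)
    [FiniteDimensional k L] : ∃ (m : ℕ) (j' : (N'.pi m).M →+ N.M), finrank k K * m = finrank k L ∧
      Form L N (N'.pi m) j' ∧ j'.range = sp B (L : Set Ω) j := by
  obtain ⟨m, u, c, hm, hu, h1, h2, h3, h4⟩ := exists_rel hL
  let j' : (Fin m → N'.M) →+ N.M := AddMonoidHom.mk'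
    (fun f => ∑ i, algebraMap Ω B (u i) • j (f i)) fun f g => by simp [Finset.sum_add_distrib]
  have hj : ∀ f, j' f = ∑ i, algebraMap Ω B (u i) • j (f i) := fun _ => rfl
  have hr : j'.range = sp B (L : Set Ω) j := by
    refine le_antisymm ?_ (sp_le fun a ha x => ?_)
    · rintro _ ⟨f, rfl⟩
      rw [hj]
      exact AddSubgroup.sum_mem _ fun i _ => mem_sp (B := B) (S := (L : Set Ω)) (hu i) (f i)
    · choose y hy using fun i => h.st _ (h2 i a) x
      refine ⟨y, ?_⟩
      simp only [hj, hy, ← mul_smul, ← map_mul, ← Finset.sum_smul, ← map_sum, h4 a ha]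
  refine ⟨m, j', hm, ⟨(injective_iff_map_eq_zero j').2 fun f hf => funext fun e => ?_,
    fun a f => ?_, fun d f => ?_, fun a ha f => ?_, fun y => ?_, fun r hr => ?_⟩, hr⟩
  · obtain ⟨R, hR⟩ := h.ret _ (h1 e)
    have := congrArg R hf
    simp only [hj, map_sum, hR, h3, map_zero, apply_ite, ite_smul, map_one, one_smul, zero_smul,
      Finset.sum_ite_eq', Finset.mem_univ, if_true] at this
    exact h.inj (this.trans (map_zero j).symm)
  · change ∑ i, algebraMap Ω B (u i) • j (a • f i) = _ • ∑ i, algebraMap Ω B (u i) • j (f i)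
    simp only [h.lin, Finset.smul_sum, smul_comm (algebraMap A B a)]
  · change ∑ i, algebraMap Ω B (u i) • j (N'.π d (f i)) =
      N.π d (∑ i, algebraMap Ω B (u i) • j (f i))
    simp only [h.gr, map_sum, π_zero N (H3 _)]
  · exact hr.ge (sp_smul ha (hr.le ⟨f, rfl⟩))
  · refine sp_le (fun a _ x => ?_) (h.top y)
    obtain ⟨f, hf⟩ := hr.ge (mem_sp L.one_mem x)
    rw [map_one, one_smul] at hf
    exact hf ▸ mem_sp (Set.mem_univ a) f
  · obtain ⟨R, hR⟩ := h.ret r fun a ha => hr a (hL ha)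
    refine ⟨R, fun ω (f : Fin m → N'.M) => ?_⟩
    change R (_ • j' f) = _ • j' f
    simp only [hj, Finset.smul_sum, map_sum, ← mul_smul, ← map_mul, hR, mul_comm _ (u _),
      hr _ (hu _)]

theorem Form.ev_map [Algebra.IsAlgebraic k Ω] (hM : Form K M M' i) (hN : Form K' N N' j)
    (hf : Module.Finite A M'.M) (f : M.M →ₗ[B] N.M) : ∀ᶠ L : FD k Ω in atTop,
      ∀ y ∈ sp B (L.1 : Set Ω) i, f y ∈ sp B (L.1 : Set Ω) j := by
  obtain ⟨s, hs⟩ := hf.fg_top
  refine ((eventually_all_finset s).2 fun x _ => ev_sp k (hN.top (f (i x)))).mono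
    fun L h y hy => sp_map f.toAddMonoidHom (fun c hc x => ?_) hy
  rw [LinearMap.toAddMonoidHom_coe, map_smul]
  refine sp_smul hc ?_
  have hx : x ∈ Submodule.span A (s : Set M'.M) := hs ▸ trivial
  induction hx using Submodule.span_induction with
  | mem x hx => exact h x hx
  | zero => simp
  | add x y _ _ hx hy => simpa only [map_add] using add_mem hx hy
  | smul a x _ hx =>
    rw [hM.lin, map_smul]
    refine sp_map (DistribSMul.toAddMonoidHom _ (algebraMap A B a)) (fun d hd z => ?_) hx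
    rw [DistribSMul.toAddMonoidHom_apply, smul_comm, ← hN.lin]
    exact mem_sp hd _

theorem Form.map (hM : Form K M M' i) (hN : Form K N N' j) {f : M.M →ₗ[B] N.M} (hf : IsG f)
    (h : ∀ x, ∃ y, j y = f (i x)) :
    ∃ f' : M'.M →ₗ[A] N'.M, IsG f' ∧ ∀ x, j (f' x) = f (i x) := by
  choose f' hf' using h
  exact ⟨⟨⟨f', fun x y => hN.inj (by simp [hf'])⟩, fun a x => hN.inj (by
    simp [hf', hM.lin, hN.lin])⟩, fun d x => hN.inj (by simp [hf', hM.gr, hN.gr, hf d]), hf'⟩

theorem Form.ses (hM : Form K M M' i) (hN : Form K N N' j) (hP : Form K P P' l)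
    {f : M.M →ₗ[B] N.M} {g : N.M →ₗ[B] P.M} (hf : IsG f) (hg : IsG g) (hs : Sx f g)
    (h1 : ∀ x, ∃ y, j y = f (i x)) (h2 : ∀ x, ∃ y, l y = g (j x)) : Ses M' N' P' := by
  obtain ⟨f', hf1, hf2⟩ := hM.map hN hf h1
  obtain ⟨g', hg1, hg2⟩ := hN.map hP hg h2
  obtain ⟨r, hr, hK, h1⟩ := exists_proj K
  obtain ⟨R, hR⟩ := hM.ret r hr
  obtain ⟨S, hS⟩ := hN.ret r hr
  obtain ⟨T, hT⟩ := hP.ret r hr
  have e1 : ∀ y, S (f y) = f (R y) := fun y =>
    sp_ext (f := S.comp f.toAddMonoidHom) (g := f.toAddMonoidHom.comp R)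
      (fun c _ x => by simp [hR, ← hf2, hS]) (hM.top y)
  have e2 : ∀ y, T (g y) = g (S y) := fun y =>
    sp_ext (f := T.comp g.toAddMonoidHom) (g := g.toAddMonoidHom.comp S)
      (fun c _ x => by simp [hS, ← hg2, hT]) (hN.top y)
  have e3 : ∀ y, ∃ x, i x = R y := fun y =>
    sp_le (H := i.range.comap R) (fun c _ x => (hM.st _ (hK c) x).imp fun _ h => h.trans (hR c x).symm)
      (hM.top y)
  have e4 : ∀ y, ∃ x, j x = S y := fun y =>
    sp_le (H := j.range.comap S) (fun c _ x => (hN.st _ (hK c) x).imp fun _ h => h.trans (hS c x).symm)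
      (hN.top y)
  refine ⟨f', g', hf1, hg1, fun x y h => hM.inj (hs.1 (by rw [← hf2, ← hf2, h])), fun p => ?_,
    fun x => ⟨fun hx => ?_, ?_⟩⟩
  · obtain ⟨y, hy⟩ := hs.2.1 (l p)
    obtain ⟨x, hx⟩ := e4 y
    exact ⟨x, hP.inj (by simpa [hg2, hx, ← e2, hy, h1] using hT 1 p)⟩
  · obtain ⟨y, hy⟩ := (hs.2.2 (j x)).1 (by rw [← hg2, hx, map_zero])
    obtain ⟨z, hz⟩ := e3 y
    exact ⟨z, hN.inj (by simpa [hf2, hz, ← e1, hy, h1] using hS 1 x)⟩
  · rintro ⟨y, rfl⟩
    exact hP.inj (by rw [hg2, hf2, map_zero, hs.2.2.apply_apply_eq_zero])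

theorem val_add [Algebra.IsAlgebraic k Ω] (H3 : ∀ ω, algebraMap Ω B ω ∈ ℬ 0) {c : GM 𝒜 → ℚ}
    (hc : GAdd c) {K₁ K₂ K₃ : FD k Ω} (f1 : Module.Finite A M'.M) (f2 : Module.Finite A N'.M)
    (f3 : Module.Finite A P'.M) (hM : Form K₁.1 M M' i) (hN : Form K₂.1 N N' j)
    (hP : Form K₃.1 P P' l) (hs : Ses M N P) :
    (finrank k K₂.1 : ℚ)⁻¹ * c N' = (finrank k K₁.1 : ℚ)⁻¹ * c M' + (finrank k K₃.1 : ℚ)⁻¹ * c P' := by
  obtain ⟨f, g, hf, hg, hs⟩ := hs
  obtain ⟨L, ⟨h1, h2, h3⟩, h4, h5⟩ := (((eventually_ge_atTop K₁).and ((eventually_ge_atTop K₂).and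
    (eventually_ge_atTop K₃))).and ((hM.ev_map hN f1 f).and (hN.ev_map hP f2 g))).exists
  have := L.2
  obtain ⟨m₁, i', e1, hM', r1⟩ := hM.up H3 h1
  obtain ⟨m₂, j', e2, hN', r2⟩ := hN.up H3 h2
  obtain ⟨m₃, l', e3, hP', r3⟩ := hP.up H3 h3
  have h := hc _ _ _ inferInstance (hM'.ses hN' hP' hf hg hs
    (fun x => r2.ge (h4 _ (r1.le ⟨x, rfl⟩))) fun x => r3.ge (h5 _ (r2.le ⟨x, rfl⟩)))
  have hv : ∀ (K : FD k Ω) (m : ℕ) (V : GM 𝒜), Module.Finite A V.M →
      finrank k K.1 * m = finrank k L.1 →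
      (finrank k K.1 : ℚ)⁻¹ * c V = (finrank k L.1 : ℚ)⁻¹ * c (V.pi m) := by
    intro K m V hV e
    have h0 : (m : ℚ) ≠ 0 := by
      rintro h0
      rw [Nat.cast_eq_zero.1 h0, mul_zero] at e
      exact finrank_pos.ne e
    rw [hc.pi hV, ← e, Nat.cast_mul, mul_inv, mul_assoc, inv_mul_cancel_left₀ h0]
  rw [hv _ _ _ f1 e1, hv _ _ _ f2 e2, hv _ _ _ f3 e3, h, mul_add]

variable [Algebra k A] [Algebra k B] [IsScalarTower k A B] [IsScalarTower k Ω B]
  [Algebra.IsPushout k Ω A B]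

/-- compatible gradings -/
structure Cmp (k Ω : Type) [Field k] [Field Ω] [Algebra k A] [Algebra Ω B] (𝒜 : Γ → Set A)
    (ℬ : Γ → Set B) : Prop where
  gen : ∀ a, a ∈ AddSubgroup.closure (⋃ c, 𝒜 c)
  cst : ∀ r : k, algebraMap k A r ∈ 𝒜 0
  cst' : ∀ ω : Ω, algebraMap Ω B ω ∈ ℬ 0
  map : ∀ c, ∀ a ∈ 𝒜 c, algebraMap A B a ∈ ℬ c
  dec : ∀ c, ∀ β ∈ ℬ c, β ∈ sp B (Set.univ : Set Ω) fun a : 𝒜 c => algebraMap A B a

theorem ev_sum (V : GM 𝒜) (x : V.M) : ∀ᶠ s : Finset Γ in atTop, ∑ d ∈ s, V.π d x = x := by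
  obtain ⟨s, hs⟩ := V.sum_π x
  refine (eventually_ge_atTop s).mono fun t ht =>
    (Finset.sum_subset ht fun d _ hd => ?_).symm.trans hs
  rw [← hs, map_sum]
  exact Finset.sum_eq_zero fun e he => V.π_ne d e _ fun h => hd (h ▸ he)

theorem Cmp.exists_π (h : Cmp k Ω 𝒜 ℬ) (V : GM 𝒜) (d : Γ) : ∃ R : B ⊗[A] V.M →+ B ⊗[A] V.M,
    ∀ ω v, R (algebraMap Ω B ω • (1 : B) ⊗ₜ v) = algebraMap Ω B ω • (1 : B) ⊗ₜ V.π d v :=
  (bc_spec k Ω V.M).1 (AddMonoidHom.id Ω) (V.π d) (fun _ _ _ => rfl)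
    fun c => π_zero V (h.cst c) d

/-- base change -/
def Cmp.bc (h : Cmp k Ω 𝒜 ℬ) (V : GM 𝒜) : GM ℬ where
  M := B ⊗[A] V.M
  π d := (h.exists_π V d).choose
  π_self d x := sp_ext (f := (h.exists_π V d).choose.comp (h.exists_π V d).choose)
    (fun c _ v => by simp only [AddMonoidHom.comp_apply, (h.exists_π V d).choose_spec, V.π_self])
    ((bc_spec k Ω V.M).2.1 x)
  π_ne d e x hde := sp_ext (f := (h.exists_π V d).choose.comp (h.exists_π V e).choose) (g := 0)
    (fun c _ v => by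
      simp only [AddMonoidHom.comp_apply, (h.exists_π V _).choose_spec, V.π_ne d e _ hde,
        tmul_zero, smul_zero, AddMonoidHom.zero_apply])
    ((bc_spec k Ω V.M).2.1 x)
  sum_π x := Eventually.exists (f := atTop) (by
    induction (bc_spec k Ω V.M).2.1 x using AddSubgroup.closure_induction with
    | mem y hy =>
      obtain ⟨c, -, v, rfl⟩ := hy
      exact (ev_sum V v).mono fun s hs => by
        simp only [(h.exists_π V _).choose_spec, ← Finset.smul_sum, ← tmul_sum, hs]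
    | zero => simp
    | add x y _ _ hx hy =>
      exact (hx.and hy).mono fun s hs => by simp only [map_add, Finset.sum_add_distrib, hs.1, hs.2]
    | neg x _ hx => exact hx.mono fun s hs => by simp only [map_neg, Finset.sum_neg_distrib, hs])
  π_smul c d β hβ x := sp_ext
    (f := (h.exists_π V (c + d)).choose.comp ((smulAddHom B _).flip x))
    (g := (smulAddHom B _).flip ((h.exists_π V d).choose x)) (fun ω _ a => sp_ext
      (f := (h.exists_π V (c + d)).choose.comp (smulAddHom B _ (_ • _)))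
      (g := (smulAddHom B _ (_ • _)).comp (h.exists_π V d).choose) (fun ω' _ v => by
        have e : ∀ w : V.M, (algebraMap Ω B ω • algebraMap A B a) • algebraMap Ω B ω' •
            (1 : B) ⊗ₜ[A] w = algebraMap Ω B (ω * ω') • (1 : B) ⊗ₜ[A] (a.1 • w) := fun w => by
          simp only [tmul_smul, smul_eq_mul, map_mul, mul_smul, algebraMap_smul B a.1,
            smul_comm a.1]
        simp only [AddMonoidHom.comp_apply, smulAddHom_apply, (h.exists_π V _).choose_spec, e,
          V.π_smul c d _ a.2]) ((bc_spec k Ω V.M).2.1 x)) (h.dec c β hβ)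

theorem Cmp.form_bc (h : Cmp k Ω 𝒜 ℬ) (V : GM 𝒜) : Form (⊥ : IntermediateField k Ω) (h.bc V) V
    (TensorProduct.mk A B V.M 1).toAddMonoidHom where
  inj := (injective_iff_map_eq_zero _).2 (bc_spec k Ω V.M).2.2
  lin a x := (tmul_smul a (1 : B) x).trans (algebraMap_smul B a _).symm
  gr d x := by
    have := (h.exists_π V d).choose_spec 1 x
    rw [map_one, one_smul, one_smul] at this
    exact this.symm
  st c hc x := by
    obtain ⟨r, rfl⟩ := IntermediateField.mem_bot.1 hc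
    refine ⟨algebraMap k A r • x, (tmul_smul _ (1 : B) x).trans ?_⟩
    rw [← algebraMap_smul B, ← IsScalarTower.algebraMap_apply, ← IsScalarTower.algebraMap_apply]
    rfl
  top := (bc_spec k Ω V.M).2.1
  ret r hr := (bc_spec k Ω V.M).1 r (AddMonoidHom.id _) hr fun _ _ => rfl

theorem st_span (gen : ∀ a, a ∈ AddSubgroup.closure (⋃ c, 𝒜 c)) (M : GM 𝒜) {S : Set M.M}
    (hS : ∀ x ∈ S, ∃ e, M.π e x = x) (d : Γ) (x : M.M) (hx : x ∈ Submodule.span A S) :
    M.π d x ∈ Submodule.span A S := by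
  have : ∀ a : A, M.π d (a • x) ∈ Submodule.span A S := by
    induction hx using Submodule.span_induction with
    | mem x hx =>
      intro a
      induction gen a using AddSubgroup.closure_induction with
      | mem a ha =>
        obtain ⟨c, hc⟩ := Set.mem_iUnion.1 ha
        obtain ⟨e, he⟩ := hS x hx
        rw [← add_sub_cancel c d, M.π_smul c _ a hc]
        refine Submodule.smul_mem _ _ ?_
        by_cases h : d - c = e
        · rw [h, he]; exact Submodule.subset_span hx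
        · rw [← he, M.π_ne _ _ _ h]; exact zero_mem _
      | zero => simp
      | add a b _ _ ha hb => rw [add_smul, map_add]; exact add_mem ha hb
      | neg a _ ha => rw [neg_smul, map_neg]; exact neg_mem ha
    | zero => simp
    | add x y _ _ hx hy => exact fun a => by rw [smul_add, map_add]; exact add_mem (hx a) (hy a)
    | smul b x _ hx => exact fun a => by rw [← mul_smul]; exact hx _
  simpa using this 1

theorem Cmp.exists_form [Algebra.IsAlgebraic k Ω] [IsNoetherianRing B] (h : Cmp k Ω 𝒜 ℬ)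
    (N : FGM ℬ) : ∃ (K : FD k Ω) (N' : FGM 𝒜) (j : N'.1.M →+ N.1.M), Form K.1 N.1 N'.1 j := by
  classical
  obtain ⟨N, ⟨S, hS⟩⟩ := N
  choose s hs using N.sum_π
  let ι := Σ x : S, s x
  let n : ι → N.M := fun p => N.π p.2 p.1
  let φ := Fintype.linearCombination B n
  have hφ : ∀ i β, φ (Pi.single i β) = β • n i := fun i β =>
    Fintype.linearCombination_apply_single B n i β
  have hn : Submodule.span B (Set.range n) = ⊤ := by
    rw [eq_top_iff, ← hS, Submodule.span_le]
    intro x hx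
    rw [← hs x, ← Finset.sum_coe_sort]
    exact sum_mem fun d _ => Submodule.subset_span ⟨⟨⟨x, hx⟩, d⟩, rfl⟩
  have hsur : Surjective φ := by
    rw [← LinearMap.range_eq_top, Fintype.range_linearCombination, hn]
  obtain ⟨t, ht⟩ := IsNoetherian.noetherian (LinearMap.ker φ)
  obtain ⟨hB, htop⟩ := ring_spec (A := A) (B := B) k Ω
  obtain ⟨K, hK⟩ := ((eventually_all_finset t).2 fun w _ =>
    eventually_all.2 fun i => ev_sp k (htop (w i))).exists
  have := K.2
  obtain ⟨m, u, c, -, hu, -, h2, -, h4⟩ := exists_rel (bot_le : ⊥ ≤ K.1)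
  let : Module A N.M := (rs h.map N).mod
  let v : Fin m × ι → N.M := fun p => algebraMap Ω B (u p.1) • n p.2
  let W := Submodule.span A (Set.range v)
  have hA : ∀ (a : A), ∀ x ∈ W, algebraMap A B a • x ∈ W := fun a x hx => W.smul_mem a hx
  have h1 : ∀ a ∈ K.1, ∀ i, algebraMap Ω B a • n i ∈ W := fun a ha i => by
    rw [← h4 a ha, map_sum, Finset.sum_smul]
    refine W.sum_mem fun l _ => ?_
    obtain ⟨r, hr⟩ := IntermediateField.mem_bot.1 (h2 l a)
    rw [← hr, map_mul, mul_comm, mul_smul, ← IsScalarTower.algebraMap_apply,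
      IsScalarTower.algebraMap_apply k A B]
    exact hA _ _ (Submodule.subset_span ⟨(l, i), rfl⟩)
  have ind : ∀ H : AddSubgroup N.M, (∀ (a : A), ∀ e ∈ K.1, ∀ i,
      algebraMap A B a • algebraMap Ω B e • n i ∈ H) → ∀ x ∈ W, x ∈ H := by
    intro H hH x hx
    have : ∀ a : A, a • x ∈ H := by
      induction hx using Submodule.span_induction with
      | mem x hx => obtain ⟨p, rfl⟩ := hx; exact fun a => hH a _ (hu _) _
      | zero => simp
      | add x y _ _ hx hy => exact fun a => by rw [smul_add]; exact add_mem (hx a) (hy a)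
      | smul b x _ hx => exact fun a => by rw [← mul_smul]; exact hx _
    simpa using this 1
  have hW : Module.Finite A W := Module.Finite.span_of_finite A (Set.finite_range v)
  refine ⟨K, ⟨(rs h.map N).sub W (st_span h.gen _ ?_), hW⟩, W.subtype.toAddMonoidHom, Subtype.val_injective, fun _ _ => rfl,
    fun _ _ => rfl, fun a ha x => ⟨⟨_, ?_⟩, rfl⟩, fun y => ?_, fun r hr => ?_⟩
  · rintro _ ⟨p, rfl⟩
    exact ⟨p.2.2, (π_zero N (h.cst' _) _ _).trans (congrArg _ (N.π_self _ _))⟩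
  · refine ind (W.toAddSubgroup.comap (DistribSMul.toAddMonoidHom N.M (algebraMap Ω B a)))
      (fun b e he i => ?_) x.1 x.2
    change algebraMap Ω B a • algebraMap A B b • algebraMap Ω B e • n i ∈ W
    rw [smul_comm, ← mul_smul _ (algebraMap Ω B e), ← map_mul]
    exact hA _ _ (h1 _ (K.1.mul_mem ha he) i)
  · obtain ⟨γ, rfl⟩ := hsur y
    rw [Fintype.linearCombination_apply]
    refine AddSubgroup.sum_mem _ fun i _ => sp_map ((smulAddHom B N.M).flip (n i))
      (fun ω hω a => ?_) (htop (γ i))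
    have := mem_sp (B := B) (j := (W.subtype.toAddMonoidHom : W → N.M)) hω
      ⟨_, hA a _ (h1 1 K.1.one_mem i)⟩
    change (algebraMap Ω B ω * algebraMap A B a) • n i ∈ _
    rw [mul_smul, ← one_smul B (n i), ← map_one (algebraMap Ω B)]
    exact this
  · obtain ⟨R, hR⟩ := hB r fun a ha => hr a (bot_le (a := K.1) ha)
    have hmul : ∀ β ∈ sp B (K.1 : Set Ω) (algebraMap A B), ∀ γ, R (γ * β) = R γ * β :=
      fun β hβ γ => sp_ext (f := R.comp (AddMonoidHom.mulLeft γ)) (g := AddMonoidHom.mulLeft (R γ))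
        (fun e he a => sp_ext (f := R.comp (AddMonoidHom.mulRight _))
          (g := (AddMonoidHom.mulRight _).comp R) (fun ω _ a' => by
            have := hR (e * ω) (a * a')
            rw [hr e he] at this
            simp only [AddMonoidHom.comp_apply, AddMonoidHom.coe_mulRight, hR]
            simpa only [smul_eq_mul, map_mul, mul_comm, mul_left_comm, mul_assoc] using this)
          (htop γ)) hβ
    have hker : φ.toAddMonoidHom.ker ≤ (φ.toAddMonoidHom.comp (R.compLeft ι)).ker := by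
      intro y hy
      have hy' : y ∈ Submodule.span B (t : Set (ι → B)) := ht ▸ hy
      have : ∀ γ : B, φ (R.compLeft ι (γ • y)) = 0 := by
        clear hy
        induction hy' using Submodule.span_induction with
        | mem w hw =>
          intro γ
          rw [show R.compLeft ι (γ • w) = R γ • w from funext fun i => hmul _ (hK w hw i) γ,
            map_smul, show φ w = 0 from ht.le (Submodule.subset_span hw), smul_zero]
        | zero => simp
        | add x y _ _ hx hy => exact fun γ => by rw [smul_add, map_add, map_add, hx, hy, add_zero]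
        | smul b x _ hx => exact fun γ => by rw [← mul_smul]; exact hx _
      simpa using this 1
    let T := φ.toAddMonoidHom.liftOfSurjective hsur ⟨_, hker⟩
    have hT : ∀ γ, T (φ γ) = φ (R.compLeft ι γ) :=
      φ.toAddMonoidHom.liftOfRightInverse_comp_apply _ _ ⟨_, hker⟩
    refine ⟨T, fun ω x => ind ((T.comp (DistribSMul.toAddMonoidHom N.M (algebraMap Ω B ω))).eqLocus
      (DistribSMul.toAddMonoidHom N.M (algebraMap Ω B (r ω)))) (fun a e he i => ?_) x.1 x.2⟩
    change T (algebraMap Ω B ω • algebraMap A B a • algebraMap Ω B e • n i) =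
      algebraMap Ω B (r ω) • algebraMap A B a • algebraMap Ω B e • n i
    have := hT (Pi.single i (algebraMap Ω B (e * ω) • algebraMap A B a))
    rw [show R.compLeft ι (Pi.single i (algebraMap Ω B (e * ω) • algebraMap A B a)) =
      Pi.single i (R _) from funext (Pi.apply_single (fun _ => R) (fun _ => R.map_zero) i _),
      hφ, hφ, hR, hr e he] at this
    simpa only [← mul_smul, smul_eq_mul, map_mul, mul_comm, mul_left_comm, mul_assoc] using this

theorem Cmp.bc_π (h : Cmp k Ω 𝒜 ℬ) (V : GM 𝒜) (d : Γ) (ω : Ω) (v : V.M) :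
    (h.bc V).π d (algebraMap Ω B ω • (1 : B) ⊗ₜ[A] v) = algebraMap Ω B ω • (1 : B) ⊗ₜ[A] V.π d v :=
  (h.exists_π V d).choose_spec ω v

end Pool.Agent.Pav.Dn
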