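import Pool.Agent.P.MP_2ce3e7_ag.Pav.Defs

/-! From a decomposition of the diagonal to vector bundles on a product. -/

set_option autoImplicit false
set_option linter.unusedSectionVars false
set_option linter.unusedVariables false

open Function Filter
open scoped TensorProduct Polynomial

noncomputable section

namespace Pool.Agent.Pav

open Pool.Agent.CXD
open scoped LaurentPolynomial

variable {k T A σ D τ : Type} [Field k] [Fintype k] [CommRing T] [Algebra k T] [CommRing A]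
  [Algebra k A] [Fintype σ] {𝒜 : ℤ → Set A} {z : σ → A} {θ : A →ₐ[k] A[T;T⁻¹]} [Gd 𝒜] [Gk k 𝒜]
  [CommRing D] [Algebra k D] {𝒟 : ℤ → Set D} [Gd 𝒟] {s : τ → D} {u : D →+* T ⊗[k] A}
  [IsNoetherianRing T] [PreconnectedSpace (PrimeSpectrum T)] [IsNoetherianRing D]
  {l : GM (tgr k T 𝒜) → ℚ} {U : GM 𝒟} {e : U.M}

theorem graph_iter [IsNoetherianRing A] [IsNoetherianRing (A ⊗[k] A)] (h : Std 𝒜 z θ)
    {Δ : GM (tg k 𝒜 𝒜)} {δ : Δ.M} (hd : Dg θ Δ δ) {m : GM (tg k 𝒜 𝒜) → ℚ} (hm : GAdd m)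
    (hv : VnG ⊥ (Set.range (zz k z)) m) (a : ℕ) {Y : GM (tg k 𝒜 𝒜)} {y : Y.M}
    (hY : Cy Y y (gI k z (Fintype.card k ^ a))) : m Y = m ((verF k 𝒜 𝒜)^[a] Δ) := by
  obtain ⟨T₂, h₂⟩ := h.exists_T2
  obtain ⟨L, hL⟩ := exists_ulin (S := Set.range (zz k z)) m hm fun M hM hn => hv M hM kill_bot hn
  have hit : ∀ a : ℕ, Module.Finite (A ⊗[k] A) ((verF k 𝒜 𝒜)^[a] Δ).M ∧
      (T₂ ^ a) (ucl _ Δ) = ucl _ ((verF k 𝒜 𝒜)^[a] Δ) := fun a => by
    induction a with
    | zero => exact ⟨hd.finite, rfl⟩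
    | succ a ih =>
      rw [iterate_succ_apply']
      exact ⟨verF_finite_EB2 h ih.1, by rw [pow_succ', Module.End.mul_apply, ih.2, h₂ _ ih.1]⟩
  rw [← hL _ hY.finite, ← hL _ (hit a).1, ← (hit a).2, h.graph_val hd a hY h₂]

theorem ev_diag (h : Std 𝒜 z θ) (hG : DB k 𝒜 z) {Δ : GM (tg k 𝒜 𝒜)} {δ : Δ.M} (hd : Dg θ Δ δ)
    (hT : Ht k T) (hl : AdmP z l) (hu : Hm u 𝒟 (tgr k T 𝒜) (AddMonoidHom.id ℤ)) (hr : Rad z s u)
    (hD : Uni k s U e) {V : GM 𝒟} (hV : QL s V) : ev0 (thp l hu V Δ) = 0 := by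
  classical
  have := h.finiteType
  have : IsNoetherianRing A := Algebra.FiniteType.isNoetherianRing k A
  have := noeth_tensor' k A A
  have hΔ := hd.finite
  have hq : Hm (frb k D) 𝒟 𝒟 (Fintype.card k • AddMonoidHom.id ℤ) := hm_frb card_smul_eq_zero
  obtain ⟨Λ, hΛ⟩ := hD.exists_lin (W := FGM (tg k 𝒜 𝒜) → ℚ)
    (φ := fun V Y => ev0 (thp l hu V Y.1))
    (fun M N P hM hN hP hs => funext fun Y => ev0_add (h.thp_pf hu hl hr hM Y.2)
      (h.thp_pf hu hl hr hP Y.2) (h.thp_sesV hu hl hr hM hN hP Y.2 hs))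
    fun M hM hn => funext fun Y => ev0_zero (h.thp_nilV hu hl hr hM Y.2 hn)
  obtain ⟨F, hF⟩ := hD.exists_T hq
  let ev : GM (tg k 𝒜 𝒜) → UG 𝒟 (Set.range s) →ₗ[ℚ] ℚ := fun Y =>
    if hY : Module.Finite (A ⊗[k] A) Y.M then (LinearMap.proj ⟨Y, hY⟩).comp Λ else 0
  have hev : ∀ Y : GM (tg k 𝒜 𝒜), Module.Finite (A ⊗[k] A) Y.M → ∀ V, QL s V →
      ev Y (ucl _ V) = ev0 (thp l hu V Y) := fun Y hY V hV => by
    simp only [ev, dif_pos hY, LinearMap.comp_apply, LinearMap.proj_apply, hΛ V hV]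
  have key : ∀ f g : UG 𝒟 (Set.range s) →ₗ[ℚ] ℚ, (∀ V, QL s V → f (ucl _ V) = g (ucl _ V)) →
      ∀ v, f v = g v := fun f g H v =>
    hD.ind (p := fun v => f v = g v) H (by simp) (fun a b ha hb => by simp [ha, hb])
      (fun a b hb => by simp [hb]) v
  have hfin : ∀ Y : GM (tg k 𝒜 𝒜), Module.Finite (A ⊗[k] A) Y.M →
      Module.Finite (A ⊗[k] A) (verF k 𝒜 𝒜 Y).M := fun Y hY =>
    res_finite (hm_Fr card_smul_eq_zero) (Fr_finite k A A) Y hY
  have hver : ∀ Y : GM (tg k 𝒜 𝒜), Module.Finite (A ⊗[k] A) Y.M → ∀ v,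
      ev (verF k 𝒜 𝒜 Y) v = ev Y (F v) := fun Y hY =>
    key _ ((ev Y).comp F) fun V hV => by
      rw [LinearMap.comp_apply, hF V hV.1, hev _ (hfin Y hY) V hV, hev _ hY _ (hD.fr_ql hq hV),
        ev0_congr (h.thp_frob hT hl hu hr hq hD.rg hV hY)]
      exact ev0_scale (h.thp_pf hu hl hr (hD.fr_ql hq hV) hY) Fintype.card_pos
  have hit : ∀ a : ℕ, Module.Finite (A ⊗[k] A) ((verF k 𝒜 𝒜)^[a] Δ).M ∧
      ∀ v, ev ((verF k 𝒜 𝒜)^[a] Δ) v = ev Δ ((F ^ a) v) := fun a => by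
    induction a with
    | zero => exact ⟨hΔ, fun v => rfl⟩
    | succ a ih =>
      rw [iterate_succ_apply']
      exact ⟨hfin _ ih.1, fun v => by rw [hver _ ih.1, ih.2, pow_succ, Module.End.mul_apply]⟩
  have h1 : GAdd fun Y => ev Y (ucl _ V) := fun M N P hN hs => by
    obtain ⟨hM, hP⟩ := fin_CWM hN hs
    change ev N _ = ev M _ + ev P _
    rw [hev _ hM V hV, hev _ hN V hV, hev _ hP V hV]
    exact ev0_add (h.thp_pf hu hl hr hV hM) (h.thp_pf hu hl hr hV hP) (h.thp_sesY hu hl hr hV hN hs)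
  have h2 : VnG ⊥ (Set.range (zz k z)) fun Y => ev Y (ucl _ V) := vn_zz h1
    (fun M hM _ hn => (hev _ hM V hV).trans
      (ev0_zero (Eventually.of_forall (h.thp_left hu hl hV.1 hM hn))))
    fun M hM _ hn => (hev _ hM V hV).trans (ev0_zero (h.thp_right hu hl hV.1 hM hn))
  have h3 : ExtG k 𝒜 𝒜 fun Y => ev Y (ucl _ V) := fun N M hN hM =>
    (hev _ (gbox_finite hN hM) V hV).trans (ev0_zero (h.thp_ext hu hT hl hr hV hN hM))
  choose Y y hY using fun a : ℕ => h.exists_graph (Fintype.card k ^ a)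
  have h4 : ∀ a, ev (Y a) (ucl _ V) = ev Δ ((F ^ a) (ucl _ V)) := fun a =>
    (graph_iter h hd h1 h2 a (hY a)).trans ((hit a).2 _)
  obtain ⟨p, hp, hp0⟩ := hD.pos_all hq hF (ucl _ V)
  have h5 := hG _ h1 h2 h3 Y y hY p hp fun n => by
    have e1 : ev Δ ((F ^ n) (Polynomial.aeval F p (ucl _ V))) = 0 := by
      rw [hp0, map_zero, map_zero]
    rw [← e1, Polynomial.aeval_endomorphism, Polynomial.sum, Polynomial.sum, map_sum, map_sum]
    exact Finset.sum_congr rfl fun a _ => by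
      rw [map_smul, map_smul, smul_eq_mul, ← Module.End.mul_apply, ← pow_add, add_comm n a, ← h4]
  rw [← hev Δ hΔ V hV]
  exact (h4 0).symm.trans h5

theorem bc_diag (h : Std 𝒜 z θ) (hG : DB k 𝒜 z)
    (hT : Ht k T) (hl : AdmP z l) (hu : Hm u 𝒟 (tgr k T 𝒜) (AddMonoidHom.id ℤ)) (hr : Rad z s u)
    (hD : Uni k s U e) {Z : Set D} (hZ : Z.Finite) (hz : ∀ y ∈ Z, y ∈ cl 𝒟 1)
    (hs : ∀ j, ∃ y ∈ Z, y ∣ s j) {U₀ : GM 𝒜} {e₀ : U₀.M} (hU : Cy U₀ e₀ ⊥) {V : GM 𝒟}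
    (hV : QL s V) : l (tens hu V (gbx k (rt T) U₀)) = 0 := by
  have := h.noeth_one T
  have := h.finiteType
  have : IsNoetherianRing A := Algebra.FiniteType.isNoetherianRing k A
  have := noeth_tensor' k A A
  have hB := hU.gbx (k := k) (T := T)
  have hf : ∀ {V : GM 𝒟}, Module.Finite D V.M →
      Module.Finite (T ⊗[k] A) (tens hu V (gbx k (rt T) U₀)).M := fun hV =>
    tens_finite hV hB.finite
  have hn : ∀ {X : Type} [AddCommGroup X] [Module (T ⊗[k] A) X],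
      Nil (Set.range fun j => u (s j)) X → Nil (zT k T z) X := fun hX =>
    hX.of_radical (by rintro _ ⟨i, rfl⟩; exact hr i)
  obtain ⟨Λ, hΛ⟩ := hD.exists_lin (φ := fun V => l (tens hu V (gbx k (rt T) U₀)))
    (fun M N P hM hN hP hs => by
      obtain ⟨F, G, h1, h2, h3, h4, h5⟩ := tens_sesV hu hP.2 hs (gbx k (rt T) U₀)
      exact h.adm_right hl (hf hM.1) (hf hN.1) (h.tens_ef hu hr hM hU.finite)
        (h.tens_ef hu hr hN hU.finite) (h.tens_ef hu hr hP hU.finite) h1 h2 h3 h4 (hn h5))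
    fun M hM hM' => hl.tors _ (hf hM) (hn (by
      have := tens_nilV hu hM' (gbx k (rt T) U₀)
      rwa [← Set.range_comp] at this))
  have h1 := shift_top (gadd_ucl_CWM2 Λ) 1 hZ hz (fun M hM hk => by
    rw [ucl_nil, map_zero]
    rintro _ ⟨j, rfl⟩ x
    obtain ⟨y, hy, w, hw⟩ := hs j
    exact ⟨1, by rw [pow_one, hw, mul_comm, mul_smul, hk y hy, smul_zero]⟩) V hV.1
  have h2 : ∀ t : ℤ, Λ (ucl _ (V.shift (t • 1))) = l ((tens hu V (gbx k (rt T) U₀)).shift t) :=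
    fun t => by
      obtain ⟨g, hg, hb⟩ := tens_shiftV hu V (gbx k (rt T) U₀) t
      rw [smul_eq_mul, mul_one, hΛ (V.shift t) hV]
      exact hl.congr _ _ g (hf hV.1) hg hb
  obtain ⟨Δ, δ, hd⟩ := h.exists_dg
  have h3 := ev_diag h hG hd hT hl hu hr hD hV
  rw [ev0_congr (h.thp_dg hd hu hl hV.1 hB (h.tens_ef hu hr hV hU.finite)), ← funext h2,
    ev0_top h1, h2] at h3
  exact (hl.congr ((tens hu V (gbx k (rt T) U₀)).shift 0) (tens hu V (gbx k (rt T) U₀))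
    LinearMap.id (hf hV.1)
    (fun d x => congrArg (fun c => (tens hu V (gbx k (rt T) U₀)).π c x) (zero_add d))
    bijective_id).symm.trans h3

theorem par_of_diag (h : Std 𝒜 z θ) (hG : DB k 𝒜 z) (hT : Ht k T) : Par k T 𝒜 z :=
  fun ρ₀ V hV => by
  have := h.noeth_one T
  obtain ⟨U₀, e₀, hU⟩ := h.exists_rg
  have hB := hU.gbx (k := k) (T := T)
  obtain ⟨α, β, _, _, ρ, g₂, u, hu, E, g, hg, h1, h2, h3, h4, h5⟩ :=
    exists_univ (k := k) (z := fun i => inr k T A (z i)) dir_int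
      (fun i => tmul_mem_tgr 1 (mem_cl (h.deg i))) hB V.2 hV
  obtain ⟨U, e, hU'⟩ := det_rg (k := k) (σ := σ) (α := α) (β := β) (ρ := ρ) (g₁ := (1 : ℤ))
    (g₂ := g₂)
  have hD := det_uni (by rw [← AddSubgroup.zmultiples_eq_closure, Int.zmultiples_one]) hU'
  have hf := tens_finite (h := hu) h3.1 hB.finite
  have he := (h.ef_iso hf V.2 hg h4 h5).1 (h.tens_ef hu h1 h3 hU.finite)
  refine h.exists_formP V he fun l hl => (h.adm_iso hl hf V.2 he hg h4 h5).symm.trans ?_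
  exact bc_diag h hG hT hl hu h1 hD (Set.finite_range (zD k σ α β ρ))
    (by rintro _ ⟨i, rfl⟩; exact mem_cl (zD_mem i))
    (fun j => ⟨_, ⟨j.1, rfl⟩, Dvd.intro _ rfl⟩) hU h3

open MvPolynomial in
theorem exists_std {κ τ : Type} [Field κ] [Fintype τ] (J : Ideal (MvPolynomial τ κ))
    (hJ : ∀ d, ∀ f ∈ J, homogeneousComponent d f ∈ J) :
    ∃ θ, Std (k := κ) (hom J) (crd J) θ := by
  have key : ∀ (n : ℕ) (f : MvPolynomial τ κ), f.IsHomogeneous n →
      aeval (R := κ) (fun i => (LaurentPolynomial.C (crd J i) * LaurentPolynomial.T 1 :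
        (MvPolynomial τ κ ⧸ J)[T;T⁻¹])) f =
        LaurentPolynomial.C (Ideal.Quotient.mk J f) * LaurentPolynomial.T n := by
    intro n f hf
    rw [aeval_def, eval₂_eq', f.as_sum, map_sum, map_sum, Finset.sum_mul, ← f.as_sum]
    refine Finset.sum_congr rfl fun d hd => ?_
    have h1 : ∑ i, (d i : ℤ) = n := by
      have := hf (mem_support_iff.1 hd)
      rw [← this, Finsupp.weight_apply, Finsupp.sum_fintype _ _ (by simp)]
      simp
    rw [monomial_eq, Finsupp.prod_fintype _ _ (by simp), map_mul, map_mul, map_prod, map_prod,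
      ← h1, mul_assoc]
    congr 1
    have h2 : ∀ s : Finset τ, (LaurentPolynomial.T (∑ i ∈ s, (d i : ℤ)) :
        (MvPolynomial τ κ ⧸ J)[T;T⁻¹]) = ∏ i ∈ s, LaurentPolynomial.T 1 ^ d i := fun s => by
      classical
      induction s using Finset.induction_on with
      | empty => simp
      | insert a s ha ih =>
        rw [Finset.sum_insert ha, Finset.prod_insert ha, LaurentPolynomial.T_add, ih,
          LaurentPolynomial.T_pow, mul_one]
    rw [h2, ← Finset.prod_mul_distrib]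
    exact Finset.prod_congr rfl fun i _ => by
      rw [map_pow, map_pow]
      exact mul_pow (LaurentPolynomial.C (crd J i)) (LaurentPolynomial.T 1) (d i)
  refine ⟨Ideal.Quotient.liftₐ J (aeval fun i => LaurentPolynomial.C (crd J i) *
    LaurentPolynomial.T 1) fun f hf => ?_, hom_std _ _ fun i => ?_⟩
  · rw [← sum_homogeneousComponent f, map_sum]
    refine Finset.sum_eq_zero fun d _ => ?_
    rw [key d _ (homogeneousComponent_isHomogeneous d f),
      Ideal.Quotient.eq_zero_iff_mem.2 (hJ d f hf), map_zero, zero_mul]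
  · exact aeval_X _ i

theorem p_Ev : S_Ev := fun k _ _ τ _ J hJ h s hs => by
  obtain ⟨θ, hθ⟩ := exists_std J hJ
  have := sph_conn (k := k) hs
  exact par_of_diag hθ h sph_ht

end Pool.Agent.Pav
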