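import Pool.Agent.P.MP_2ce3e7_ag.Pav.Dbo
import Pool.Agent.P.MP_2ce3e7_ag.Pav.Down
import Pool.Agent.P.MP_2ce3e7_ag.Pav.Res
import Pool.Agent.P.MP_dd457d_ag.Bav.Idk
import Pool.Agent.P.MP_dd457d_ag.Bav.Plus

/-! The vanishing from the point data. -/

set_option autoImplicit false

namespace Pool.Agent.Pav

open Pool.Agent.Bav

theorem par_of_hasP (k : Type) [Field k] [Fintype k] {G τ : Type} [AddCommGroup G] [Fintype τ]
    {p : G → τ → AlgebraicClosure k} {g : ℕ} {F : G →+ G} (h : HasP k p g F) (s : ℕ)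
    (hs : 0 < s) : CXD.Par k (CXD.Sph k s) (CXD.hom (idk k p)) (CXD.crd (idk k p)) := by
  obtain ⟨σ, Λ, Γ, _, _, _, _, ρ, b, π, P, hρ, hc, rfl, -, hN⟩ := h
  exact par_of_pmod p_DBo p_Down p_Ev p_Res p_Idk k P b hρ hc hN s hs

end Pool.Agent.Pav
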