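import Pool.Agent.P.MP_2ce3e7_ag.Pav.Main
import Pool.Agent.P.MP_dd457d_ag.Bav.MainP

/-! The theorem for every abelian variety over a finite field. -/

set_option autoImplicit false

namespace Pool.Agent.Pav

open Pool.Agent.Tav Pool.Agent.Bav

theorem mainP (k : Type) [Field k] [Fintype k] {G τ : Type} [AddCommGroup G] [Fintype τ] {g : ℕ}
    {p : G → τ → AlgebraicClosure k} (av : AV p g) (inj : ∀ y y', Par (p y) (p y') → y = y')
    {F : G →+ G} (hF : ∀ y, Par (p (F y)) (p y ^ Fintype.card k)) (s : ℕ) (hs : 0 < s) :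
    CXD.Par k (CXD.Sph k s) (CXD.hom (idk k p)) (CXD.crd (idk k p)) :=
  par_of_hasP k (hasP k av inj hF) s hs

end Pool.Agent.Pav
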